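import Pool.Agent.J6H48.MG.Main
import Pool.Agent.Y177.Dg.Grd

/-! Semidirect products with diagonalizable group schemes. -/

set_option autoImplicit false
set_option linter.unusedSectionVars false

universe u v

namespace Pool.Agent.J6H48.MG

open AlgebraicGeometry CategoryTheory MvPolynomial Pool.Agent.H920R2 Pool.Agent.H519R3.RS
  Pool.Agent.Y177.Ga Pool.Agent.Y177.Dg

section dia

variable {k B : Type u} [Field k] [CommRing B] [Algebra k B] {r : ℕ}
  {ρ : B →ₐ[k] MvPolynomial (Fin r) B} {Λ : Type} [AddCommGroup Λ] [Fintype Λ] [DecidableEq Λ]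
  {P : Λ → B →ₗ[k] B} (hP : PG P) (β : Fin r → Λ)
  (hρP : ∀ i b α, (ρ (P i b)).coeff α = P (i + ∑ j, α j • β j) ((ρ b).coeff α))

lemma wt_eq (α : Fin r →₀ ℕ) : Finsupp.weight β α = ∑ j, α j • β j := by
  rw [Finsupp.weight_apply, Finsupp.sum_fintype _ _ (fun i => by simp)]

lemma comp_monomial (c : Λ) (α : Fin r →₀ ℕ) (z : k) :
    weightedHomogeneousComponent β c (monomial α z) =
      if ∑ j, α j • β j = c then monomial α z else 0 := by
  classical
  ext γ
  rw [coeff_weightedHomogeneousComponent, coeff_monomial]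
  by_cases hγ : α = γ
  · subst hγ
    rw [wt_eq, if_pos rfl]
    split_ifs <;> simp
  · rw [if_neg hγ]
    split_ifs <;> simp [coeff_monomial, hγ]

include hρP in
lemma CH_stable (p : ℕ) (h : Fin r → ℕ) (i : Λ) : ∀ x ∈ CH ρ p h, P i x ∈ CH ρ p h := by
  intro x hx
  rw [mem_CH'] at hx ⊢
  intro j n hn hn'
  rw [hρP, hx j n hn hn', map_zero]

lemma comps (A : AddSubgroup (Fin r → k))
    (hA : ∀ f : MvPolynomial (Fin r) k, (∀ a ∈ A, eval a f = 0) → ∀ c : Λ, ∀ a ∈ A,
      eval a (weightedHomogeneousComponent β c f) = 0)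
    (x : B) (hx : x ∈ ivv ρ A) (c : Λ) (a : Fin r → k) (ha : a ∈ A) :
    ∑ α ∈ (ρ x).support with ∑ j, α j • β j = c, (∏ j, a j ^ α j) • (ρ x).coeff α =
      if c = 0 then x else 0 := by
  rw [← sub_eq_zero, ← Module.forall_dual_apply_eq_zero_iff k]
  intro φ
  let f : MvPolynomial (Fin r) k :=
    ∑ α ∈ (ρ x).support, monomial α (φ ((ρ x).coeff α)) - monomial 0 (φ x)
  have hf : ∀ b ∈ A, eval b f = 0 := by
    intro b hb
    have h1 := sv_eq_sum b x _ subset_rfl (ρ := ρ)
    rw [hx b hb] at h1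
    have h2 := congrArg φ h1
    rw [map_sum] at h2
    rw [map_sub, map_sum, eval_monomial, h2, sub_eq_zero]
    simp only [Finsupp.prod_zero_index, mul_one]
    refine Finset.sum_congr rfl fun α _ => ?_
    rw [eval_monomial, map_smul, smul_eq_mul, mul_comm, Finsupp.prod_fintype _ _
      (fun i => pow_zero _)]
  have h1 := hA f hf c a ha
  rw [map_sub, map_sum, map_sub, map_sum, comp_monomial] at h1
  rw [map_sub, map_sum, ← h1, Finset.sum_filter]
  congr 1
  · refine Finset.sum_congr rfl fun α _ => ?_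
    rw [comp_monomial]
    split_ifs with h2
    · rw [eval_monomial, map_smul, smul_eq_mul, mul_comm, Finsupp.prod_fintype _ _
        (fun i => pow_zero _)]
    · rw [map_zero]
  · by_cases hc : c = 0
    · rw [if_pos hc, if_pos (by simp [hc]), eval_monomial]
      simp
    · rw [if_neg hc, if_neg (by simpa using Ne.symm hc), map_zero, map_zero]

include hρP in
lemma ivv_stable (A : AddSubgroup (Fin r → k))
    (hA : ∀ f : MvPolynomial (Fin r) k, (∀ a ∈ A, eval a f = 0) → ∀ c : Λ, ∀ a ∈ A,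
      eval a (weightedHomogeneousComponent β c f) = 0) (i : Λ) :
    ∀ x ∈ ivv ρ A, P i x ∈ ivv ρ A := by
  intro x hx a ha
  rw [sv_eq_sum a (P i x) (ρ x).support]
  · have h1 : ∑ α ∈ (ρ x).support, (∏ j, a j ^ α j) • (ρ (P i x)).coeff α =
        ∑ c : Λ, P (i + c) (∑ α ∈ (ρ x).support with ∑ j, α j • β j = c,
          (∏ j, a j ^ α j) • (ρ x).coeff α) := by
      rw [← Finset.sum_fiberwise (ρ x).support (fun α => ∑ j, α j • β j)]
      refine Finset.sum_congr rfl fun c _ => ?_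
      rw [map_sum]
      refine Finset.sum_congr rfl fun α hα => ?_
      rw [hρP, map_smul, (Finset.mem_filter.1 hα).2]
    rw [h1]
    simp only [comps β A hA x hx _ a ha]
    rw [Finset.sum_eq_single 0]
    · rw [if_pos rfl, add_zero]
    · intro c _ hc
      rw [if_neg hc, map_zero]
    · intro hcon
      exact absurd (Finset.mem_univ _) hcon
  · intro α hα
    rw [mem_support_iff] at hα ⊢
    intro h0
    exact hα (by rw [hρP, h0, map_zero])

include hP in
lemma rho_of_homV (hh : ∀ i b, P i b = b → ∀ α, P (i + ∑ j, α j • β j) ((ρ b).coeff α) =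
      (ρ b).coeff α) (i : Λ) (b : B) (α : Fin r →₀ ℕ) :
    (ρ (P i b)).coeff α = P (i + ∑ j, α j • β j) ((ρ b).coeff α) := by
  have h1 : (ρ b).coeff α = ∑ l, (ρ (P l b)).coeff α := by
    conv_lhs => rw [← hP.sum b, map_sum, coeff_sum]
  rw [h1, map_sum, Finset.sum_eq_single i]
  · exact (hh i _ (hP.idem i b) α).symm
  · intro l _ hl
    exact hP.ne (fun h2 => hl (add_right_cancel h2).symm) (hh l _ (hP.idem l b) α)
  · simp

variable {F : ℕ → Ideal B} {l : Fin r → ℕ} {ι : Type v} {Δ : ι → B} {Λ' : ι → ℕ}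
  {θ : ι → Fin r → B} (hρ : IsVAct ρ) (hT : Triv ρ F l Δ Λ' θ)
  (p : ℕ) [hp : Fact p.Prime] [CharP k p] [CharP B p] (h : Fin r → ℕ) (hF : IsFilt F)
  (hdiv : ∀ d, ∀ b ∈ F d, ∀ α, (ρ b).coeff α ∈ F (d + ∑ j, α j * l j)) [IsDomain B]

include hP hρP hρ hT hp hF hdiv in
/-- Quotients by semidirect products. -/
theorem dia_main (hl : ∀ j, 0 < l j) (hG : Good k hF) (hne : F 1 ≠ ⊥)
    (hom : ∀ d, ∀ c ∈ F d, ∀ i, P i c ∈ F d)
    (A : AddSubgroup (Fin r → k)) [Finite A]
    (hA : ∀ f : MvPolynomial (Fin r) k, (∀ a ∈ A, eval a f = 0) → ∀ c : Λ, ∀ a ∈ A,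
      eval a (weightedHomogeneousComponent β c f) = 0)
    (D : Subalgebra k B) (hD : ∀ b, b ∈ D ↔ b ∈ CH ρ p h ⊓ ivv ρ A ∧ P 0 b = b) :
    IsVariety (X := Spec (CommRingCat.of D))
      (Spec.map (CommRingCat.ofHom (algebraMap k D))) ∧
    HasResolution (X := Spec (CommRingCat.of D))
      (Spec.map (CommRingCat.ofHom (algebraMap k D))) := by
  obtain ⟨h1, h2⟩ := good_vec hρ hT p h hF hdiv hl hG hne A
  exact concl_zr hF h1 h2 hP (fun i x hx => ⟨CH_stable β hρP p h i x hx.1,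
    ivv_stable β hρP A hA i x hx.2⟩) hom D hD

end dia

end Pool.Agent.J6H48.MG
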