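import Pool.Agent.J6H48.MG.Main
import Pool.Agent.H519R3.RE.X3

/-! The actions by translations along polynomial maps. -/

set_option autoImplicit false
set_option linter.unusedSectionVars false

universe u v

namespace Pool.Agent.J6H48.MG

open MvPolynomial Pool.Agent.H920R2 Pool.Agent.H519R3.RS Pool.Agent.Y177.Ga
  Pool.Agent.H519R3.RE

section ex

variable {k : Type u} [Field k] {n m r : ℕ} (v : Fin r → Fin m → MvPolynomial (Fin n) k)

/-- The coaction `Y t ↦ Y t + ∑ j, v j t * T j`. -/
noncomputable def va : MvPolynomial (Fin n ⊕ Fin m) k →ₐ[k]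
    MvPolynomial (Fin r) (MvPolynomial (Fin n ⊕ Fin m) k) :=
  aeval (Sum.elim (fun i => C (X (Sum.inl i)))
    fun t => C (X (Sum.inr t)) + ∑ j, C (rename Sum.inl (v j t)) * X j)

lemma va_inl (i : Fin n) : va v (X (Sum.inl i)) = C (X (Sum.inl i)) := by
  unfold va; rw [aeval_X]; rfl

lemma va_inr (t : Fin m) : va v (X (Sum.inr t)) =
    C (X (Sum.inr t)) + ∑ j, C (rename Sum.inl (v j t)) * X j := by
  unfold va; rw [aeval_X]; rfl

lemma va_ren (f : MvPolynomial (Fin n) k) : va v (rename Sum.inl f) = C (rename Sum.inl f) := by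
  have h1 : (va v).comp (rename (R := k) (Sum.inl : Fin n → Fin n ⊕ Fin m)) =
      (IsScalarTower.toAlgHom k (MvPolynomial (Fin n ⊕ Fin m) k)
        (MvPolynomial (Fin r) (MvPolynomial (Fin n ⊕ Fin m) k))).comp (rename Sum.inl) := by
    apply MvPolynomial.algHom_ext
    intro i
    rw [AlgHom.comp_apply, AlgHom.comp_apply, rename_X, va_inl]
    rfl
  exact congrArg (fun φ : MvPolynomial (Fin n) k →ₐ[k]
    MvPolynomial (Fin r) (MvPolynomial (Fin n ⊕ Fin m) k) => φ f) h1

lemma isVAct_va : IsVAct (va v) := by
  apply isVAct_of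
  · have h1 : (constantCoeff : MvPolynomial (Fin r) (MvPolynomial (Fin n ⊕ Fin m) k) →+*
        MvPolynomial (Fin n ⊕ Fin m) k).comp (va v : _ →+* _) = RingHom.id _ := by
      apply MvPolynomial.ringHom_ext
      · intro c
        change constantCoeff (va v (C c)) = C c
        have h2 : va v (C c) = C (C c) := (va v).commutes c
        rw [h2, constantCoeff_C]
      · intro i
        change constantCoeff (va v (X i)) = X i
        rcases i with i | t
        · rw [va_inl, constantCoeff_C]
        · rw [va_inr, map_add, constantCoeff_C, map_sum, Finset.sum_eq_zero, add_zero]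
          intro j _
          rw [map_mul, constantCoeff_X, mul_zero]
    intro b
    exact congrArg (fun φ : MvPolynomial (Fin n ⊕ Fin m) k →+* MvPolynomial (Fin n ⊕ Fin m) k =>
      φ b) h1
  · apply MvPolynomial.algHom_ext
    intro i
    rw [AlgHom.comp_apply, AlgHom.comp_apply, AlgHom.restrictScalars_apply]
    have hC : ∀ a : MvPolynomial (Fin n ⊕ Fin m) k,
        (aeval (R := MvPolynomial (Fin n ⊕ Fin m) k) (fun j => (X j + C (X j) :
          MvPolynomial (Fin r) (MvPolynomial (Fin r) (MvPolynomial (Fin n ⊕ Fin m) k))))) (C a) =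
          C (C a) := fun a => aeval_C _ a
    have hm : ∀ a : MvPolynomial (Fin n ⊕ Fin m) k,
        (MvPolynomial.mapAlgHom (va v)) (C a : MvPolynomial (Fin r)
          (MvPolynomial (Fin n ⊕ Fin m) k)) = C (va v a) := fun a => by
      rw [MvPolynomial.mapAlgHom_apply, map_C]
      rfl
    have hX : ∀ j : Fin r, (MvPolynomial.mapAlgHom (va v)) (X j : MvPolynomial (Fin r)
        (MvPolynomial (Fin n ⊕ Fin m) k)) = X j := fun j => by
      rw [MvPolynomial.mapAlgHom_apply, map_X]
    rcases i with i | t
    · rw [va_inl, hC, hm, va_inl]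
    · rw [va_inr, map_add, map_add, hC, hm, va_inr, map_sum, map_sum]
      simp only [map_mul, hC, hm, hX, va_ren, aeval_X, map_add, map_sum, mul_add,
        Finset.sum_add_distrib]
      ring

variable (w : Fin n → ℕ) (l : Fin r → ℕ)

lemma va_mem (hv : ∀ j t, v j t ∈ EI (X : Fin n → MvPolynomial (Fin n) k) w (l j))
    (b : MvPolynomial (Fin n ⊕ Fin m) k) (α : Fin r →₀ ℕ) :
    (va v b).coeff α ∈ EI (xs k n m) w (∑ j, α j * l j) := by
  classical
  induction b using MvPolynomial.induction_on generalizing α with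
  | C a =>
    have h2 : va v (C a) = C (C a) := (va v).commutes a
    rw [h2, coeff_C]
    split_ifs with h3
    · subst h3
      simp only [Finsupp.coe_zero, Pi.zero_apply, zero_mul, Finset.sum_const_zero]
      rw [EI_zero]
      trivial
    · exact Ideal.zero_mem _
  | add p q hp hq => rw [map_add, coeff_add]; exact Ideal.add_mem _ (hp α) (hq α)
  | mul_X p i hp =>
    have hmC : ∀ (P : MvPolynomial (Fin r) (MvPolynomial (Fin n ⊕ Fin m) k)) (c),
        coeff α (P * C c) = coeff α P * c := fun P c => by
      rw [mul_comm, coeff_C_mul, mul_comm]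
    rw [map_mul]
    rcases i with i | t
    · rw [va_inl, hmC]
      exact Ideal.mul_mem_right _ _ (hp α)
    · rw [va_inr, mul_add, coeff_add, hmC, Finset.mul_sum, coeff_sum]
      refine Ideal.add_mem _ (Ideal.mul_mem_right _ _ (hp α)) (Ideal.sum_mem _ fun j _ => ?_)
      rw [← mul_assoc, coeff_mul_X']
      split_ifs with h3
      · rw [mul_comm, coeff_C_mul, mul_comm]
        have h4 := mul_mem_EI (xs k n m) w (hp (α - Finsupp.single j 1)) (ren_EI w (hv j t))
        have h5 : ∑ i, (α - Finsupp.single j 1 : Fin r →₀ ℕ) i * l i + l j =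
            ∑ i, α i * l i := by
          have h6 : α = (α - Finsupp.single j 1) + Finsupp.single j 1 := by
            rw [tsub_add_cancel_of_le]
            rw [Finsupp.single_le_iff]
            exact Nat.pos_of_ne_zero (Finsupp.mem_support_iff.1 h3)
          conv_rhs => rw [h6]
          simp only [Finsupp.coe_add, Pi.add_apply, add_mul, Finset.sum_add_distrib]
          congr 1
          rw [Finset.sum_eq_single j]
          · rw [Finsupp.single_eq_same, one_mul]
          · intro i _ hi
            rw [Finsupp.single_eq_of_ne hi, zero_mul]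
          · intro hcon
            exact absurd (Finset.mem_univ j) hcon
        rw [h5] at h4
        exact h4
      · exact Ideal.zero_mem _

lemma va_div (hv : ∀ j t, v j t ∈ EI (X : Fin n → MvPolynomial (Fin n) k) w (l j))
    (d : ℕ) (b : MvPolynomial (Fin n ⊕ Fin m) k) (hb : b ∈ EI (xs k n m) w d)
    (α : Fin r →₀ ℕ) : (va v b).coeff α ∈ EI (xs k n m) w (d + ∑ j, α j * l j) := by
  classical
  unfold EI at hb
  induction hb using Submodule.span_induction generalizing α with
  | mem y hy =>
    obtain ⟨γ, hγ, rfl⟩ := hy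
    rw [mono_ren, va_ren, coeff_C]
    split_ifs with h3
    · subst h3
      simp only [Finsupp.coe_zero, Pi.zero_apply, zero_mul, Finset.sum_const_zero, add_zero]
      rw [← mono_ren]
      exact mono_mem _ w γ hγ
    · exact Ideal.zero_mem _
  | zero => rw [map_zero, coeff_zero]; exact Ideal.zero_mem _
  | add y z _ _ hy hz => rw [map_add, coeff_add]; exact Ideal.add_mem _ (hy α) (hz α)
  | smul c y _ hy =>
    rw [smul_eq_mul, map_mul, coeff_mul]
    refine Ideal.sum_mem _ fun x hx => ?_
    have h1 := mul_mem_EI (xs k n m) w (va_mem v w l hv c x.1) (hy x.2)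
    have h2 : ∑ j, x.1 j * l j + (d + ∑ j, x.2 j * l j) = d + ∑ j, α j * l j := by
      rw [← Finset.HasAntidiagonal.mem_antidiagonal.1 hx]
      simp only [Finsupp.coe_add, Pi.add_apply, add_mul, Finset.sum_add_distrib]
      ring
    rw [h2] at h1
    exact h1

/-- The minors. -/
noncomputable def mnv (J : Fin r → Fin m) : Matrix (Fin r) (Fin r) (MvPolynomial (Fin n) k) :=
  Matrix.of fun a b => v a (J b)

/-- The elements on which the group acts by translations. -/
noncomputable def tht (J : Fin r → Fin m) (j : Fin r) : MvPolynomial (Fin n ⊕ Fin m) k :=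
  ∑ b, rename Sum.inl ((mnv v J).adjugate b j) * X (Sum.inr (J b))

variable (hv : ∀ j t, IsWeightedHomogeneous w (v j t) (l j))

include hv in
lemma hom_adj (J : Fin r → Fin m) (b j : Fin r) :
    IsWeightedHomogeneous w ((mnv v J).adjugate b j) (∑ i, l i - l j) := by
  classical
  rw [Matrix.adjugate_apply]
  have h1 := hom_det w ((mnv v J).updateRow j (Pi.single b 1)) (fun i => if i = j then 0 else l i)
    (by
      intro a b'
      by_cases ha : a = j
      · subst ha
        rw [Matrix.updateRow_self, if_pos rfl]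
        by_cases hb : b' = b
        · subst hb
          rw [Pi.single_eq_same]
          exact isWeightedHomogeneous_one k w
        · rw [Pi.single_eq_of_ne hb]
          exact isWeightedHomogeneous_zero k w 0
      · rw [Matrix.updateRow_ne ha, if_neg ha]
        exact hv a (J b'))
  have h2 : ∑ i, (if i = j then 0 else l i) = ∑ i, l i - l j := by
    rw [← Finset.add_sum_erase Finset.univ l (Finset.mem_univ j),
      ← Finset.add_sum_erase Finset.univ (fun i => if i = j then 0 else l i)
        (Finset.mem_univ j), if_pos rfl, zero_add, Nat.add_sub_cancel_left]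
    exact Finset.sum_congr rfl fun i hi => if_neg (Finset.ne_of_mem_erase hi)
  rwa [h2] at h1

lemma va_tht (J : Fin r → Fin m) (j : Fin r) : va v (tht v J j) =
    C (tht v J j) + C (rename Sum.inl (mnv v J).det) * X j := by
  classical
  unfold tht
  rw [map_sum, map_sum]
  have h1 : ∀ b, va v (rename Sum.inl ((mnv v J).adjugate b j) * X (Sum.inr (J b))) =
      C (rename Sum.inl ((mnv v J).adjugate b j) * X (Sum.inr (J b))) +
      ∑ i, C (rename Sum.inl (mnv v J i b * (mnv v J).adjugate b j)) * X i := by
    intro b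
    rw [map_mul, va_ren, va_inr, mul_add, Finset.mul_sum, ← C_mul]
    refine congrArg₂ _ rfl (Finset.sum_congr rfl fun i _ => ?_)
    have e1 : mnv v J i b = v i (J b) := rfl
    rw [e1, map_mul (rename Sum.inl), C_mul, ← mul_assoc, mul_comm (C _) (C _)]
  rw [Finset.sum_congr rfl fun b _ => h1 b, Finset.sum_add_distrib]
  congr 1
  rw [Finset.sum_comm]
  have h2 : ∀ i, ∑ b, C (rename Sum.inl (mnv v J i b * (mnv v J).adjugate b j)) * X i =
      C (rename Sum.inl (if i = j then (mnv v J).det else 0)) *
        (X i : MvPolynomial (Fin r) (MvPolynomial (Fin n ⊕ Fin m) k)) := by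
    intro i
    rw [← Finset.sum_mul, ← map_sum, ← map_sum]
    refine congrArg₂ _ (congrArg _ (congrArg _ ?_)) rfl
    have h3 := congrFun (congrFun (Matrix.mul_adjugate (mnv v J)) i) j
    rw [Matrix.mul_apply] at h3
    rw [h3, Matrix.smul_apply, Matrix.one_apply, smul_eq_mul]
    split_ifs
    · rw [mul_one]
    · rw [mul_zero]
  rw [Finset.sum_congr rfl fun i _ => h2 i, Finset.sum_eq_single j]
  · rw [if_pos rfl]
  · intro i _ hi
    rw [if_neg hi, map_zero, map_zero, zero_mul]
  · intro hcon
    exact absurd (Finset.mem_univ j) hcon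

include hv in
lemma hom_detJ (J : Fin r → Fin m) :
    IsWeightedHomogeneous w (mnv v J).det (∑ i, l i) :=
  hom_det w (mnv v J) l fun a b => hv a (J b)

include hv in
/-- The local trivializations. -/
lemma triv_va (hV : ∀ (K : Type u) [Field K] [Algebra k K] (z : Fin n → K),
      (∃ i, 0 < w i ∧ z i ≠ 0) → LinearIndependent K (fun j t => aeval z (v j t))) :
    Triv (va v) (EI (xs k n m) w) l (fun J : Fin r → Fin m => rename Sum.inl (mnv v J).det)
      (fun _ => ∑ i, l i) (tht v) where
  memΔ J := ren_EI w (hom_mem_EI w (hom_detJ v w l hv J))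
  memθ J j := by
    unfold tht
    refine Ideal.sum_mem _ fun b _ => Ideal.mul_mem_right _ _ ?_
    exact ren_EI w (hom_mem_EI w (hom_adj v w l hv J b j))
  le _ j := Finset.single_le_sum (f := l) (fun _ _ => Nat.zero_le _) (Finset.mem_univ j)
  map J j := va_tht v J j
  gen := by
    have hrad : ∀ s, 0 < w s → (X s : MvPolynomial (Fin n) k) ∈
        (Ideal.span (Set.range fun J : Fin r → Fin m => (mnv v J).det)).radical := by
      intro s hs
      exact minors_rad w v hV s hs
    obtain ⟨M0, hM0⟩ := large_comb w (fun J : Fin r → Fin m => (mnv v J).det) (∑ i, l i)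
      (hom_detJ v w l hv) hrad
    have key : ∀ e, M0 ≤ e → EI (xs k n m) w e ≤
        Ideal.span {y | ∃ J : Fin r → Fin m, ∃ b ∈ EI (xs k n m) w (e - ∑ i, l i),
          y = b * rename Sum.inl (mnv v J).det} := by
      intro e he
      conv_lhs => unfold EI
      rw [Ideal.span_le]
      rintro _ ⟨α, hα, rfl⟩
      have h1 := hM0 e he _ (mono_mem (X : Fin n → MvPolynomial (Fin n) k) w α hα)
      have h2 := Ideal.mem_map_of_mem
        (rename (R := k) (Sum.inl : Fin n → Fin n ⊕ Fin m)).toRingHom h1
      rw [Ideal.map_span] at h2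
      rw [mono_ren]
      refine Ideal.span_mono ?_ h2
      rintro _ ⟨_, ⟨j, g, hg, rfl⟩, rfl⟩
      refine ⟨j, rename Sum.inl g, ren_EI w hg, ?_⟩
      exact map_mul (rename (R := k) (Sum.inl : Fin n → Fin n ⊕ Fin m)) _ _
    intro d hd a ha
    refine ⟨M0 + 1, key _ ?_ (pow_mem_EI _ w ha _)⟩
    have h4 : (M0 + 1) * 1 ≤ (M0 + 1) * d := Nat.mul_le_mul_left _ hd
    omega

end ex

end Pool.Agent.J6H48.MG
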