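import Pool.Agent.J6H48.MG.Ex
import Pool.Agent.J6H48.MG.Dia

/-! Gradings for the actions by translations along polynomial maps. -/

set_option autoImplicit false
set_option linter.unusedSectionVars false

universe u v

namespace Pool.Agent.J6H48.MG

open AlgebraicGeometry CategoryTheory MvPolynomial Pool.Agent.H920R2 Pool.Agent.H519R3.RS
  Pool.Agent.Y177.Ga Pool.Agent.Y177.Dg Pool.Agent.H519R3.RE

section inv

variable {k B : Type u} [Field k] [CommRing B] [Algebra k B] {r : ℕ}
  {ρ : B →ₐ[k] MvPolynomial (Fin r) B} (hρ : IsVAct ρ) (p : ℕ) [hp : Fact p.Prime] [CharP k p]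
  (h : Fin r → ℕ)

include hρ hp in
/-- The invariants of the infinitesimal part, by congruences. -/
lemma mem_CH_iff (b : B) : b ∈ CH ρ p h ↔
    ρ b - C b ∈ Ideal.span (Set.range fun j : Fin r =>
      (X j : MvPolynomial (Fin r) B) ^ p ^ h j) := by
  classical
  have hset : (Set.range fun j : Fin r => (X j : MvPolynomial (Fin r) B) ^ p ^ h j) =
      (fun s : Fin r →₀ ℕ => (monomial s (1 : B))) ''
        (Set.range fun j : Fin r => Finsupp.single j (p ^ h j)) := by
    rw [← Set.range_comp]
    congr 1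
    funext j
    rw [X_pow_eq_monomial]
    rfl
  rw [hset, mem_ideal_span_monomial_image]
  have hq : ∀ j, 0 < p ^ h j := fun j => pow_pos hp.out.pos _
  constructor
  · intro hb α hα
    rw [mem_support_iff, coeff_sub, coeff_C] at hα
    by_cases h0 : α = 0
    · exfalso
      apply hα
      rw [h0, if_pos rfl, hρ.zero, sub_self]
    · rw [if_neg (Ne.symm h0), sub_zero] at hα
      obtain ⟨j, hj⟩ : ∃ j, α j ≠ 0 := by
        by_contra hcon
        push Not at hcon
        exact h0 (Finsupp.ext hcon)
      refine ⟨_, ⟨j, rfl⟩, ?_⟩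
      rw [Finsupp.single_le_iff]
      have h1 : p ^ h j ∣ α j := by
        by_contra hcon
        exact hα (coeff_CH hρ p h hb α j hcon)
      exact Nat.le_of_dvd (Nat.pos_of_ne_zero hj) h1
  · intro hb
    rw [mem_CH']
    intro j n hn hn'
    by_contra hcon
    obtain ⟨_, ⟨i, rfl⟩, hi⟩ := hb (Finsupp.single j n) (by
      rw [mem_support_iff, coeff_sub, coeff_C, if_neg, sub_zero]
      · exact hcon
      · intro h0
        have := Finsupp.single_eq_zero.1 h0.symm
        omega)
    rw [Finsupp.single_le_iff] at hi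
    by_cases hij : i = j
    · subst hij
      rw [Finsupp.single_eq_same] at hi
      omega
    · rw [Finsupp.single_eq_of_ne hij] at hi
      have := hq i
      omega

end inv

section gra

variable {k : Type u} [Field k] {n m r : ℕ} (v : Fin r → Fin m → MvPolynomial (Fin n) k)
  {Λ : Type} [AddCommGroup Λ] (ω : Fin n → Λ) (κ : Fin m → Λ) (β : Fin r → Λ)
  (hω : ∀ j t, IsWeightedHomogeneous ω (v j t) (κ t + β j))

/-- The polynomials whose coefficients have given degrees. -/
def SS' (W : Fin n ⊕ Fin m → Λ) (β : Fin r → Λ) (i : Λ)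
    (P : MvPolynomial (Fin r) (MvPolynomial (Fin n ⊕ Fin m) k)) : Prop :=
  ∀ α, IsWeightedHomogeneous W (P.coeff α) (i + ∑ j, α j • β j)

variable {W : Fin n ⊕ Fin m → Λ} {β}

lemma SS'.mul {i i' : Λ} {P Q : MvPolynomial (Fin r) (MvPolynomial (Fin n ⊕ Fin m) k)}
    (hP : SS' W β i P) (hQ : SS' W β i' Q) : SS' W β (i + i') (P * Q) := by
  classical
  intro α
  rw [coeff_mul]
  refine (weightedHomogeneousSubmodule k W _).sum_mem fun x hx => ?_
  have h1 := (hP x.1).mul (hQ x.2)
  have h2 : i + ∑ j, x.1 j • β j + (i' + ∑ j, x.2 j • β j) = i + i' + ∑ j, α j • β j := by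
    rw [← Finset.HasAntidiagonal.mem_antidiagonal.1 hx]
    simp only [Finsupp.coe_add, Pi.add_apply, add_smul, Finset.sum_add_distrib]
    abel
  rw [h2] at h1
  exact h1

lemma SS'_C {i : Λ} {b : MvPolynomial (Fin n ⊕ Fin m) k} (hb : IsWeightedHomogeneous W b i) :
    SS' (r := r) W β i (C b) := by
  classical
  intro α
  rw [coeff_C]
  split_ifs with h1
  · subst h1
    simpa using hb
  · exact isWeightedHomogeneous_zero k W _

lemma SS'_add {i : Λ} {P Q : MvPolynomial (Fin r) (MvPolynomial (Fin n ⊕ Fin m) k)}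
    (hP : SS' W β i P) (hQ : SS' W β i Q) : SS' W β i (P + Q) := by
  intro α
  rw [coeff_add]
  exact (weightedHomogeneousSubmodule k W _).add_mem (hP α) (hQ α)

lemma SS'_X {i : Λ} (j : Fin r) : SS' W β (-β j)
    (X j : MvPolynomial (Fin r) (MvPolynomial (Fin n ⊕ Fin m) k)) := by
  classical
  intro α
  rw [coeff_X]
  split_ifs with h1
  · rw [← h1, Finset.sum_eq_single j]
    · rw [Finsupp.single_eq_same, one_smul, neg_add_cancel]
      exact isWeightedHomogeneous_one k W
    · intro i _ hi
      rw [Finsupp.single_eq_of_ne hi, zero_smul]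
    · intro hcon
      exact absurd (Finset.mem_univ j) hcon
  · exact isWeightedHomogeneous_zero k W _

lemma SS'_pow {i : Λ} {P : MvPolynomial (Fin r) (MvPolynomial (Fin n ⊕ Fin m) k)}
    (hP : SS' W β i P) (N : ℕ) : SS' W β (N • i) (P ^ N) := by
  induction N with
  | zero =>
    rw [pow_zero, zero_smul, ← C_1]
    exact SS'_C (isWeightedHomogeneous_one k W)
  | succ N ih =>
    rw [pow_succ, succ_nsmul]
    exact ih.mul hP

lemma SS'_prod {ι : Type*} (s : Finset ι) (i : ι → Λ)
    (P : ι → MvPolynomial (Fin r) (MvPolynomial (Fin n ⊕ Fin m) k))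
    (hP : ∀ a ∈ s, SS' W β (i a) (P a)) : SS' W β (∑ a ∈ s, i a) (∏ a ∈ s, P a) := by
  classical
  induction s using Finset.induction_on with
  | empty =>
    rw [Finset.sum_empty, Finset.prod_empty, ← C_1]
    exact SS'_C (isWeightedHomogeneous_one k W)
  | insert a s ha ih =>
    rw [Finset.sum_insert ha, Finset.prod_insert ha]
    exact (hP a (Finset.mem_insert_self _ _)).mul
      (ih fun b hb => hP b (Finset.mem_insert_of_mem hb))

lemma ren_hom {f : MvPolynomial (Fin n) k} {i : Λ} (hf : IsWeightedHomogeneous ω f i) :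
    IsWeightedHomogeneous (Sum.elim ω κ) (rename Sum.inl f) i := by
  classical
  rw [f.as_sum, map_sum]
  refine (weightedHomogeneousSubmodule k _ _).sum_mem fun α hα => ?_
  rw [rename_monomial]
  refine isWeightedHomogeneous_monomial _ _ _ ?_
  have h1 := hf (mem_support_iff.1 hα)
  rw [← h1, Finsupp.weight_apply, Finsupp.weight_apply,
    Finsupp.sum_mapDomain_index (fun _ => by simp) (fun _ _ _ => by rw [add_smul])]
  rfl

include hω in
lemma va_homog (i : Λ) (b : MvPolynomial (Fin n ⊕ Fin m) k)
    (hb : IsWeightedHomogeneous (Sum.elim ω κ) b i) : SS' (Sum.elim ω κ) β i (va v b) := by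
  classical
  have hgen : ∀ s : Fin n ⊕ Fin m, SS' (Sum.elim ω κ) β (Sum.elim ω κ s) (va v (X s)) := by
    intro s
    rcases s with s | t
    · rw [va_inl]
      exact SS'_C (isWeightedHomogeneous_X k _ _)
    · rw [va_inr]
      refine SS'_add (SS'_C (isWeightedHomogeneous_X k _ _)) ?_
      have h1 : ∀ s : Finset (Fin r), SS' (Sum.elim ω κ) β (Sum.elim ω κ (Sum.inr t))
          (∑ j ∈ s, C (rename Sum.inl (v j t)) *
            (X j : MvPolynomial (Fin r) (MvPolynomial (Fin n ⊕ Fin m) k))) := by
        intro s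
        induction s using Finset.induction_on with
        | empty =>
          rw [Finset.sum_empty, ← C_0]
          exact SS'_C (isWeightedHomogeneous_zero k _ _)
        | insert a s ha ih =>
          rw [Finset.sum_insert ha]
          refine SS'_add ?_ ih
          have h2 := (SS'_C (r := r) (β := β) (ren_hom ω κ (hω a t))).mul
            (SS'_X (i := 0) (W := Sum.elim ω κ) (β := β) a)
          have h3 : κ t + β a + -β a = Sum.elim ω κ (Sum.inr t) := by
            rw [add_neg_cancel_right]
            rfl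
          rw [h3] at h2
          exact h2
      exact h1 Finset.univ
  rw [b.as_sum, map_sum]
  intro α
  rw [coeff_sum]
  refine (weightedHomogeneousSubmodule k _ _).sum_mem fun d hd => ?_
  have h1 := hb (mem_support_iff.1 hd)
  have h2 : va v (monomial d (coeff d b)) = C (C (coeff d b)) * ∏ s ∈ d.support,
      va v (X s) ^ d s := by
    have h3 : (monomial d (coeff d b) : MvPolynomial (Fin n ⊕ Fin m) k) =
        C (coeff d b) * ∏ s ∈ d.support, X s ^ d s := by
      rw [monomial_eq]
      rfl
    conv_lhs => rw [h3]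
    rw [map_mul, map_prod]
    have h4 : va v (C (coeff d b)) = C (C (coeff d b)) := (va v).commutes _
    rw [h4]
    congr 1
    exact Finset.prod_congr rfl fun s _ => by rw [map_pow]
  have h3 : SS' (Sum.elim ω κ) β i (va v (monomial d (coeff d b))) := by
    rw [h2]
    have h4 := (SS'_C (r := r) (β := β) (isWeightedHomogeneous_C (Sum.elim ω κ) (coeff d b))).mul
      (SS'_prod d.support (fun s => d s • Sum.elim ω κ s) (fun s => va v (X s) ^ d s)
        fun s _ => SS'_pow (hgen s) (d s))
    have h5 : (0 : Λ) + ∑ s ∈ d.support, d s • Sum.elim ω κ s = i := by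
      rw [zero_add, ← h1, Finsupp.weight_apply]
      rfl
    rw [h5] at h4
    exact h4
  exact h3 α

end gra

section stab

variable {k : Type u} [Field k] {n m : ℕ} {Λ : Type} [AddCommGroup Λ] [Fintype Λ]
  [DecidableEq Λ] {P : Λ → MvPolynomial (Fin n ⊕ Fin m) k →ₗ[k] MvPolynomial (Fin n ⊕ Fin m) k}
  (hP : PG P) (W : Fin n ⊕ Fin m → Λ)
  (hPW : ∀ i b, P i b = b ↔ IsWeightedHomogeneous W b i)

include hP hPW in
lemma EI_stable (w : Fin n → ℕ) (d : ℕ) (c : MvPolynomial (Fin n ⊕ Fin m) k)
    (hc : c ∈ EI (xs k n m) w d) (i : Λ) : P i c ∈ EI (xs k n m) w d := by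
  classical
  unfold EI at hc
  induction hc using Submodule.span_induction generalizing i with
  | mem y hy =>
    obtain ⟨α, hα, rfl⟩ := hy
    have h1 : IsWeightedHomogeneous W (∏ s, xs k n m s ^ α s)
        (∑ s, α s • W (Sum.inl s)) := by
      refine IsWeightedHomogeneous.prod _ _ _ fun s _ => ?_
      exact (isWeightedHomogeneous_X k W (Sum.inl s)).pow _
    by_cases h2 : i = ∑ s, α s • W (Sum.inl s)
    · rw [h2, (hPW _ _).2 h1]
      exact mono_mem _ w α hα
    · rw [hP.ne h2 ((hPW _ _).2 h1)]
      exact Ideal.zero_mem _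
  | zero => rw [map_zero]; exact Ideal.zero_mem _
  | add y z _ _ hy hz => rw [map_add]; exact Ideal.add_mem _ (hy i) (hz i)
  | smul c y _ hy =>
    rw [smul_eq_mul, hP.conv]
    exact Ideal.sum_mem _ fun l _ => Ideal.mul_mem_left _ _ (hy _)

end stab

end Pool.Agent.J6H48.MG
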