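import Mathlib

/-! Weighted polynomial functions on finite dimensional vector spaces, and the polynomial functions
which vanish on a finite subgroup. -/

set_option autoImplicit false
set_option linter.unusedSectionVars false

universe u

namespace Pool.Agent.J6H48.MG

lemma prod_sub_nat {K : Type*} [Field K] (p : ℕ) [hp : Fact p.Prime] [CharP K p] (x : K) :
    ∏ n ∈ Finset.range p, (x - (n : K)) = x ^ p - x := by
  classical
  open Polynomial in
  have key : ∏ n ∈ Finset.range p, ((X : K[X]) - C (n : K)) = X ^ p - X := by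
    have h1 : (∏ n ∈ Finset.range p, ((X : K[X]) - C (n : K))).natDegree = p := by
      rw [natDegree_finsetProd_X_sub_C_eq_card, Finset.card_range]
    have hm : (∏ n ∈ Finset.range p, ((X : K[X]) - C (n : K))).Monic :=
      monic_prod_of_monic _ _ fun n _ => monic_X_sub_C _
    have h2 : (X ^ p - X : K[X]).natDegree = p :=
      FiniteField.X_pow_card_sub_X_natDegree_eq K hp.out.one_lt
    have hm2 : (X ^ p - X : K[X]).Monic := by
      apply monic_X_pow_sub
      rw [degree_X]
      exact_mod_cast hp.out.one_lt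
    refine eq_of_degree_sub_lt_of_eval_finset_eq
      ((Finset.range p).image fun n : ℕ => (n : K)) ?_ ?_
    · rw [Finset.card_image_of_injOn (fun a ha b hb h => CharP.natCast_injOn_Iio K p
        (by simpa using ha) (by simpa using hb) h), Finset.card_range]
      have h3 := degree_sub_lt_left (p := ∏ n ∈ Finset.range p, ((X : K[X]) - C (n : K)))
        (q := X ^ p - X) (by rw [degree_eq_natDegree hm.ne_zero, degree_eq_natDegree hm2.ne_zero,
          h1, h2]) hm.ne_zero (by rw [hm.leadingCoeff, hm2.leadingCoeff])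
      rwa [degree_eq_natDegree hm.ne_zero, h1] at h3
    · intro y hy
      obtain ⟨n, hn, rfl⟩ := Finset.mem_image.1 hy
      rw [eval_prod, eval_sub, eval_pow, eval_X]
      have h4 : ((n : K)) ^ p = n := by
        have := map_natCast (frobenius K p) n
        rwa [frobenius_def] at this
      rw [h4, sub_self]
      exact Finset.prod_eq_zero hn (by simp)
  have h := congrArg (Polynomial.eval x) key
  simpa [Polynomial.eval_prod] using h

section fns

variable {k : Type u} [Field k] {r : ℕ} (p : ℕ) (h l : Fin r → ℕ)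

/-- The monomial functions. -/
def mon (α : Fin r → ℕ) (s : Fin r → k) : k := ∏ j, (s j ^ p ^ h j) ^ α j

/-- The functions of weight at most `w`. -/
def WF (w : ℕ) : Submodule k ((Fin r → k) → k) :=
  Submodule.span k {f | ∃ α : Fin r → ℕ, ∑ j, α j * (p ^ h j * l j) ≤ w ∧ f = mon p h α}

/-- The additive functions of weight at most `w`. -/
def VF (w : ℕ) : Submodule k ((Fin r → k) → k) :=
  Submodule.span k {f | ∃ (j : Fin r) (e : ℕ), p ^ e * (p ^ h j * l j) ≤ w ∧
    f = fun s => (s j ^ p ^ h j) ^ p ^ e}

lemma WF_mono {w w' : ℕ} (hw : w ≤ w') : WF (k := k) p h l w ≤ WF p h l w' := by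
  apply Submodule.span_mono
  rintro f ⟨α, hα, rfl⟩
  exact ⟨α, hα.trans hw, rfl⟩

lemma VF_mono {w w' : ℕ} (hw : w ≤ w') : VF (k := k) p h l w ≤ VF p h l w' := by
  apply Submodule.span_mono
  rintro f ⟨j, e, hα, rfl⟩
  exact ⟨j, e, hα.trans hw, rfl⟩

lemma mon_mem {w : ℕ} (α : Fin r → ℕ) (hα : ∑ j, α j * (p ^ h j * l j) ≤ w) :
    (mon p h α : (Fin r → k) → k) ∈ WF p h l w := Submodule.subset_span ⟨α, hα, rfl⟩

lemma one_mem_WF (w : ℕ) : (fun _ => 1 : (Fin r → k) → k) ∈ WF p h l w := by
  have h1 := mon_mem (k := k) p h l (w := w) (fun _ => 0) (by simp)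
  have h2 : (mon p h (fun _ => 0) : (Fin r → k) → k) = fun _ => 1 := by
    funext s
    simp [mon]
  rwa [h2] at h1

lemma const_mem_WF (w : ℕ) (c : k) : (fun _ => c : (Fin r → k) → k) ∈ WF p h l w := by
  have h1 := (WF (k := k) p h l w).smul_mem c (one_mem_WF p h l w)
  have h2 : c • (fun _ => 1 : (Fin r → k) → k) = fun _ => c := by
    funext s
    simp
  rwa [h2] at h1

lemma mul_mem_WF {w w' : ℕ} {f g : (Fin r → k) → k} (hf : f ∈ WF p h l w)
    (hg : g ∈ WF p h l w') : f * g ∈ WF p h l (w + w') := by
  have h1 : WF (k := k) p h l w * WF p h l w' ≤ WF p h l (w + w') := by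
    unfold WF
    rw [Submodule.span_mul_span, Submodule.span_le]
    rintro _ ⟨_, ⟨α, hα, rfl⟩, _, ⟨β, hβ, rfl⟩, rfl⟩
    refine Submodule.subset_span ⟨fun j => α j + β j, ?_, ?_⟩
    · have h2 : ∑ j, (α j + β j) * (p ^ h j * l j) =
          ∑ j, α j * (p ^ h j * l j) + ∑ j, β j * (p ^ h j * l j) := by
        rw [← Finset.sum_add_distrib]
        exact Finset.sum_congr rfl fun j _ => by ring
      rw [h2]
      exact Nat.add_le_add hα hβ
    · funext s
      simp only [mon, Pi.mul_apply, ← Finset.prod_mul_distrib, pow_add]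
  exact h1 (Submodule.mul_mem_mul hf hg)

lemma pow_mem_WF {w : ℕ} {f : (Fin r → k) → k} (hf : f ∈ WF p h l w) (n : ℕ) :
    f ^ n ∈ WF p h l (n * w) := by
  induction n with
  | zero =>
    rw [pow_zero]
    exact one_mem_WF p h l _
  | succ n ih =>
    rw [pow_succ, Nat.succ_mul]
    exact mul_mem_WF p h l ih hf

lemma prod_mem_WF {ι : Type*} (s : Finset ι) (f : ι → (Fin r → k) → k) (w : ι → ℕ)
    (hf : ∀ i ∈ s, f i ∈ WF p h l (w i)) : ∏ i ∈ s, f i ∈ WF p h l (∑ i ∈ s, w i) := by
  classical
  induction s using Finset.induction_on with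
  | empty =>
    rw [Finset.prod_empty]
    exact one_mem_WF p h l _
  | insert i s hi ih =>
    rw [Finset.prod_insert hi, Finset.sum_insert hi]
    exact mul_mem_WF p h l (hf i (Finset.mem_insert_self _ _))
      (ih fun j hj => hf j (Finset.mem_insert_of_mem hj))

lemma VF_le (w : ℕ) : VF (k := k) p h l w ≤ WF p h l w := by
  unfold VF
  rw [Submodule.span_le]
  rintro _ ⟨j, e, hw, rfl⟩
  have h1 := mon_mem (k := k) p h l (w := w) (Pi.single j (p ^ e)) (by
    rw [Finset.sum_eq_single j]
    · rw [Pi.single_eq_same]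
      exact hw
    · intro i _ hi
      rw [Pi.single_eq_of_ne hi, zero_mul]
    · intro hj
      exact absurd (Finset.mem_univ j) hj)
  have h2 : (mon p h (Pi.single j (p ^ e)) : (Fin r → k) → k) =
      fun s => (s j ^ p ^ h j) ^ p ^ e := by
    funext s
    unfold mon
    rw [Finset.prod_eq_single j]
    · rw [Pi.single_eq_same]
    · intro i _ hi
      rw [Pi.single_eq_of_ne hi, pow_zero]
    · intro hj
      exact absurd (Finset.mem_univ j) hj
  rwa [h2] at h1

variable [hp : Fact p.Prime] [CharP k p]

include hp in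
lemma VF_add {w : ℕ} {f : (Fin r → k) → k} (hf : f ∈ VF p h l w) (s t : Fin r → k) :
    f (s + t) = f s + f t := by
  unfold VF at hf
  induction hf using Submodule.span_induction with
  | mem f hf =>
    obtain ⟨j, e, _, rfl⟩ := hf
    change ((s j + t j) ^ p ^ h j) ^ p ^ e = _
    rw [add_pow_char_pow, add_pow_char_pow]
  | zero => simp
  | add f g _ _ hf hg =>
    simp only [Pi.add_apply, hf, hg]
    ring
  | smul c f _ hf =>
    simp only [Pi.smul_apply, hf, smul_add]

include hp in
lemma VF_zero {w : ℕ} {f : (Fin r → k) → k} (hf : f ∈ VF p h l w) : f 0 = 0 := by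
  have h1 := VF_add p h l hf 0 0
  rw [add_zero] at h1
  exact (left_eq_add.1 h1)

include hp in
lemma VF_neg {w : ℕ} {f : (Fin r → k) → k} (hf : f ∈ VF p h l w) (s : Fin r → k) :
    f (-s) = - f s := by
  have h1 := VF_add p h l hf (-s) s
  rw [neg_add_cancel, VF_zero p h l hf] at h1
  exact eq_neg_of_add_eq_zero_left h1.symm

include hp in
lemma VF_nsmul {w : ℕ} {f : (Fin r → k) → k} (hf : f ∈ VF p h l w) (n : ℕ) (s : Fin r → k) :
    f (n • s) = (n : k) * f s := by
  induction n with
  | zero => rw [zero_smul, VF_zero p h l hf, Nat.cast_zero, zero_mul]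
  | succ n ih => rw [succ_nsmul, VF_add p h l hf, ih, Nat.cast_succ]; ring

include hp in
lemma VF_zsmul {w : ℕ} {f : (Fin r → k) → k} (hf : f ∈ VF p h l w) (n : ℤ) (s : Fin r → k) :
    f (n • s) = (n : k) * f s := by
  cases n with
  | ofNat n =>
    rw [Int.ofNat_eq_natCast, natCast_zsmul, VF_nsmul p h l hf, Int.cast_natCast]
  | negSucc n =>
    rw [negSucc_zsmul, VF_neg p h l hf, VF_nsmul p h l hf, Int.cast_negSucc]
    push_cast
    ring

include hp in
lemma VF_frob {w : ℕ} {f : (Fin r → k) → k} (hf : f ∈ VF p h l w) :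
    (fun s => f s ^ p) ∈ VF p h l (p * w) := by
  unfold VF at hf
  induction hf using Submodule.span_induction with
  | mem f hf =>
    obtain ⟨j, e, he, rfl⟩ := hf
    refine Submodule.subset_span ⟨j, e + 1, ?_, ?_⟩
    · rw [pow_succ, mul_comm (p ^ e) p, mul_assoc]
      exact Nat.mul_le_mul_left p he
    · funext s
      change ((s j ^ p ^ h j) ^ p ^ e) ^ p = (s j ^ p ^ h j) ^ p ^ (e + 1)
      rw [pow_succ p e, pow_mul _ (p ^ e) p]
  | zero =>
    have h1 : (fun s : Fin r → k => (0 : (Fin r → k) → k) s ^ p) = 0 := by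
      funext s
      simp [hp.out.ne_zero]
    rw [h1]
    exact Submodule.zero_mem _
  | add f g _ _ hf hg =>
    have h1 : (fun s : Fin r → k => (f + g) s ^ p) = (fun s => f s ^ p) + fun s => g s ^ p := by
      funext s
      simp only [Pi.add_apply, add_pow_char]
    rw [h1]
    exact Submodule.add_mem _ hf hg
  | smul c f _ hf =>
    have h1 : (fun s : Fin r → k => (c • f) s ^ p) = (c ^ p) • fun s => f s ^ p := by
      funext s
      simp only [Pi.smul_apply, smul_eq_mul, mul_pow]
    rw [h1]
    exact Submodule.smul_mem _ _ hf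

include hp in
lemma WF_trans {w : ℕ} {f : (Fin r → k) → k} (hf : f ∈ WF p h l w) (u : Fin r → k) :
    (fun s => f (s + u)) ∈ WF p h l w := by
  unfold WF at hf
  induction hf using Submodule.span_induction with
  | mem f hf =>
    obtain ⟨α, hα, rfl⟩ := hf
    have h1 : (fun s : Fin r → k => mon p h α (s + u)) =
        ∏ j, (fun s : Fin r → k => (s j ^ p ^ h j) + u j ^ p ^ h j) ^ α j := by
      funext s
      rw [Finset.prod_apply]
      unfold mon
      refine Finset.prod_congr rfl fun j _ => ?_
      rw [Pi.pow_apply, Pi.add_apply, add_pow_char_pow]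
    rw [h1]
    refine WF_mono p h l hα ?_
    refine prod_mem_WF p h l _ _ _ fun j _ => pow_mem_WF p h l ?_ _
    refine Submodule.add_mem _ (VF_le p h l _ ?_) (const_mem_WF p h l _ _)
    refine Submodule.subset_span ⟨j, 0, ?_, ?_⟩
    · rw [pow_zero, one_mul]
    · funext s
      rw [pow_zero, pow_one]
  | zero => exact Submodule.zero_mem _
  | add f g _ _ hf hg => exact Submodule.add_mem _ hf hg
  | smul c f _ hf => exact Submodule.smul_mem _ _ hf

end fns

section vals

variable {k : Type u} [Field k] {r : ℕ} (p : ℕ) (h l : Fin r → ℕ) {B : Type u} [CommRing B]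
  [Algebra k B] (F : ℕ → Ideal B)

/-- The weighted polynomial functions with values in a filtered algebra. -/
def WB (d : ℕ) : Submodule k ((Fin r → k) → B) :=
  Submodule.span k {f | ∃ w, ∃ g ∈ WF p h l w, ∃ b ∈ F (d + w), f = fun s => g s • b}

variable (ha : ∀ a b, a ≤ b → F b ≤ F a)

include ha in
lemma WB_anti {d d' : ℕ} (hd : d ≤ d') : WB (k := k) p h l F d' ≤ WB p h l F d := by
  apply Submodule.span_mono
  rintro f ⟨w, g, hg, b, hb, rfl⟩
  exact ⟨w, g, hg, b, ha _ _ (by omega) hb, rfl⟩

include ha in
lemma WB_val {d : ℕ} {f : (Fin r → k) → B} (hf : f ∈ WB p h l F d) (s : Fin r → k) :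
    f s ∈ F d := by
  unfold WB at hf
  induction hf using Submodule.span_induction with
  | mem f hf =>
    obtain ⟨w, g, hg, b, hb, rfl⟩ := hf
    change g s • b ∈ F d
    rw [Algebra.smul_def]
    exact Ideal.mul_mem_left _ _ (ha _ _ (by omega) hb)
  | zero => exact Ideal.zero_mem _
  | add f g _ _ hf hg => exact Ideal.add_mem _ hf hg
  | smul c f _ hf =>
    rw [Pi.smul_apply, Algebra.smul_def]
    exact Ideal.mul_mem_left _ _ hf

lemma WB_smul {d w : ℕ} {g : (Fin r → k) → k} {f : (Fin r → k) → B} (hg : g ∈ WF p h l w)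
    (hf : f ∈ WB p h l F (d + w)) : (fun s => g s • f s) ∈ WB p h l F d := by
  unfold WB at hf
  induction hf using Submodule.span_induction with
  | mem f hf =>
    obtain ⟨w', g', hg', b, hb, rfl⟩ := hf
    refine Submodule.subset_span ⟨w + w', g * g', mul_mem_WF p h l hg hg', b, ?_, ?_⟩
    · rwa [← add_assoc]
    · funext s
      rw [Pi.mul_apply, mul_smul]
  | zero =>
    have h1 : (fun s : Fin r → k => g s • (0 : (Fin r → k) → B) s) = 0 := by
      funext s
      simp
    rw [h1]
    exact Submodule.zero_mem _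
  | add f f' _ _ hf hf' =>
    have h1 : (fun s : Fin r → k => g s • (f + f') s) =
        (fun s => g s • f s) + fun s => g s • f' s := by
      funext s
      simp
    rw [h1]
    exact Submodule.add_mem _ hf hf'
  | smul c f _ hf =>
    have h1 : (fun s : Fin r → k => g s • (c • f) s) = c • fun s => g s • f s := by
      funext s
      simp only [Pi.smul_apply, smul_smul, mul_comm]
    rw [h1]
    exact Submodule.smul_mem _ _ hf

variable [hp : Fact p.Prime] [CharP k p]

include hp in
lemma WB_trans {d : ℕ} {f : (Fin r → k) → B} (hf : f ∈ WB p h l F d) (u : Fin r → k) :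
    (fun s => f (s + u)) ∈ WB p h l F d := by
  unfold WB at hf
  induction hf using Submodule.span_induction with
  | mem f hf =>
    obtain ⟨w, g, hg, b, hb, rfl⟩ := hf
    exact Submodule.subset_span ⟨w, _, WF_trans p h l hg u, b, hb, rfl⟩
  | zero => exact Submodule.zero_mem _
  | add f f' _ _ hf hf' => exact Submodule.add_mem _ hf hf'
  | smul c f _ hf => exact Submodule.smul_mem _ _ hf

/-- Coordinates on the quotient of the vector group by a finite subgroup. -/
structure YD (T : AddSubgroup (Fin r → k)) (φ : Fin r → (Fin r → k) → k) (l' : Fin r → ℕ) :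
    Prop where
  mem : ∀ j, φ j ∈ VF p h l (l' j)
  pos : ∀ j, 0 < l' j
  van : ∀ t ∈ T, ∀ j, φ j t = 0
  ker : ∀ s, (∀ j, φ j s = 0) → s ∈ T
  div : ∀ d, ∀ f ∈ WB p h l F d, (∀ t ∈ T, f t = 0) → ∃ G : Fin r → (Fin r → k) → B,
    (∀ j, G j ∈ WB p h l F (d + l' j)) ∧ ∀ s, f s = ∑ j, φ j s • G j s

include ha hp in
lemma yd_bot (hl : ∀ j, 0 < l j) :
    YD p h l F (⊥ : AddSubgroup (Fin r → k)) (fun j s => s j ^ p ^ h j)
      (fun j => p ^ h j * l j) where
  mem j := by
    refine Submodule.subset_span ⟨j, 0, ?_, ?_⟩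
    · rw [pow_zero, one_mul]
    · funext s
      rw [pow_zero, pow_one]
  pos j := Nat.mul_pos (pow_pos hp.out.pos _) (hl j)
  van t ht j := by
    rw [AddSubgroup.mem_bot] at ht
    rw [ht]
    exact zero_pow (pow_pos hp.out.pos _).ne'
  ker s hs := by
    rw [AddSubgroup.mem_bot]
    funext j
    exact (pow_eq_zero_iff (pow_pos hp.out.pos (h j)).ne').1 (hs j)
  div d f hf hf0 := by
    classical
    have key : ∃ b0 : B, ∃ G : Fin r → (Fin r → k) → B,
        (∀ j, G j ∈ WB p h l F (d + p ^ h j * l j)) ∧
        ∀ s, f s = b0 + ∑ j, (s j ^ p ^ h j) • G j s := by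
      clear hf0
      unfold WB at hf
      induction hf using Submodule.span_induction with
      | mem f hf =>
        obtain ⟨w, g, hg, b, hb, rfl⟩ := hf
        unfold WF at hg
        induction hg using Submodule.span_induction with
        | mem g hg =>
          obtain ⟨α, hα, rfl⟩ := hg
          by_cases h0 : ∃ j, α j ≠ 0
          · obtain ⟨j0, hj0⟩ := h0
            let β : Fin r → ℕ := Function.update α j0 (α j0 - 1)
            have hβ0 : β j0 = α j0 - 1 := Function.update_self _ _ _
            have hβ : ∀ i, i ≠ j0 → β i = α i := fun i hi => Function.update_of_ne hi _ _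
            have hm : ∀ s : Fin r → k, mon p h α s = (s j0 ^ p ^ h j0) * mon p h β s := by
              intro s
              unfold mon
              rw [← Finset.mul_prod_erase Finset.univ _ (Finset.mem_univ j0),
                ← Finset.mul_prod_erase Finset.univ (fun j => (s j ^ p ^ h j) ^ β j)
                  (Finset.mem_univ j0), hβ0, ← mul_assoc, ← pow_succ',
                Nat.sub_add_cancel (Nat.pos_of_ne_zero hj0)]
              congr 1
              refine Finset.prod_congr rfl fun i hi => ?_
              rw [hβ i (Finset.ne_of_mem_erase hi)]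
            have hw : ∑ j, α j * (p ^ h j * l j) =
                p ^ h j0 * l j0 + ∑ j, β j * (p ^ h j * l j) := by
              rw [← Finset.add_sum_erase Finset.univ _ (Finset.mem_univ j0),
                ← Finset.add_sum_erase Finset.univ (fun j => β j * (p ^ h j * l j))
                  (Finset.mem_univ j0), hβ0, ← add_assoc]
              have e1 : α j0 * (p ^ h j0 * l j0) =
                  p ^ h j0 * l j0 + (α j0 - 1) * (p ^ h j0 * l j0) := by
                obtain ⟨m, hm'⟩ : ∃ m, α j0 = m + 1 := ⟨α j0 - 1, by omega⟩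
                rw [hm', Nat.add_sub_cancel]
                ring
              have e2 : ∑ i ∈ Finset.univ.erase j0, α i * (p ^ h i * l i) =
                  ∑ i ∈ Finset.univ.erase j0, β i * (p ^ h i * l i) := by
                refine Finset.sum_congr rfl fun i hi => ?_
                rw [hβ i (Finset.ne_of_mem_erase hi)]
              rw [e1, e2]
            refine ⟨0, fun j => if j = j0 then fun s => mon p h β s • b else 0, ?_, ?_⟩
            · intro j
              by_cases hj : j = j0
              · simp only [if_pos hj]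
                refine Submodule.subset_span ⟨_, _, mon_mem p h l β le_rfl, b, ?_, rfl⟩
                rw [hj]
                exact ha _ _ (by omega) hb
              · simp only [if_neg hj]
                exact Submodule.zero_mem _
            · intro s
              rw [zero_add, Finset.sum_eq_single j0]
              · simp only [if_true, hm, mul_smul]
              · intro i _ hi
                simp only [if_neg hi]
                simp
              · intro hj
                exact absurd (Finset.mem_univ _) hj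
          · push Not at h0
            refine ⟨b, 0, fun j => Submodule.zero_mem _, fun s => ?_⟩
            have h1 : mon p h α s = 1 := by
              unfold mon
              exact Finset.prod_eq_one fun j _ => by rw [h0 j, pow_zero]
            change mon p h α s • b = _
            rw [h1]
            simp
        | zero =>
          refine ⟨0, 0, fun j => Submodule.zero_mem _, fun s => ?_⟩
          simp
        | add g g' _ _ hg hg' =>
          obtain ⟨b0, G, hG, h1⟩ := hg
          obtain ⟨b0', G', hG', h1'⟩ := hg'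
          refine ⟨b0 + b0', G + G', fun j => Submodule.add_mem _ (hG j) (hG' j), fun s => ?_⟩
          have h2 := h1 s
          have h3 := h1' s
          simp only [Pi.add_apply, add_smul, smul_add, Finset.sum_add_distrib] at h2 h3 ⊢
          rw [h2, h3]
          ring
        | smul c g _ hg =>
          obtain ⟨b0, G, hG, h1⟩ := hg
          refine ⟨c • b0, c • G, fun j => Submodule.smul_mem _ _ (hG j), fun s => ?_⟩
          have h2 := h1 s
          simp only [Pi.smul_apply, smul_eq_mul, mul_smul] at h2 ⊢
          rw [h2, smul_add, Finset.smul_sum]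
          congr 1
          refine Finset.sum_congr rfl fun j _ => ?_
          rw [smul_comm]
      | zero =>
        refine ⟨0, 0, fun j => Submodule.zero_mem _, fun s => ?_⟩
        simp
      | add g g' _ _ hg hg' =>
        obtain ⟨b0, G, hG, h1⟩ := hg
        obtain ⟨b0', G', hG', h1'⟩ := hg'
        refine ⟨b0 + b0', G + G', fun j => Submodule.add_mem _ (hG j) (hG' j), fun s => ?_⟩
        simp only [Pi.add_apply, smul_add, Finset.sum_add_distrib, h1, h1']
        ring
      | smul c g _ hg =>
        obtain ⟨b0, G, hG, h1⟩ := hg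
        refine ⟨c • b0, c • G, fun j => Submodule.smul_mem _ _ (hG j), fun s => ?_⟩
        simp only [Pi.smul_apply, h1]
        rw [smul_add, Finset.smul_sum]
        congr 1
        refine Finset.sum_congr rfl fun j _ => ?_
        rw [smul_comm]
    obtain ⟨b0, G, hG, h1⟩ := key
    have h2 := h1 0
    rw [hf0 0 (AddSubgroup.mem_bot.2 rfl)] at h2
    have h3 : ∑ j, ((0 : Fin r → k) j ^ p ^ h j) • G j 0 = 0 := by
      refine Finset.sum_eq_zero fun j _ => ?_
      rw [Pi.zero_apply, zero_pow (pow_pos hp.out.pos _).ne', zero_smul]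
    rw [h3, add_zero] at h2
    refine ⟨G, hG, fun s => ?_⟩
    rw [h1 s, ← h2, zero_add]

section step

variable {p h l F} {T : AddSubgroup (Fin r → k)} {φ : Fin r → (Fin r → k) → k} {l' : Fin r → ℕ}
  (D : YD p h l F T φ l') (a : Fin r → k) (j0 : Fin r) (hj0 : φ j0 a ≠ 0)
  (hmin : ∀ i, φ i a ≠ 0 → l' j0 ≤ l' i)

include ha hp D hj0 hmin in
lemma yd_div1 (n : ℕ) (d : ℕ) (f : (Fin r → k) → B) (hf : f ∈ WB p h l F d)
    (hf0 : ∀ t ∈ T, f (t + n • a) = 0) :
    ∃ G : Fin r → (Fin r → k) → B, (∀ j, G j ∈ WB p h l F (d + l' j)) ∧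
      ∃ G0 ∈ WB (k := k) p h l F (d + l' j0), ∀ s,
        f s = ∑ i, (φ i s - φ i a / φ j0 a * φ j0 s) • G i s + (φ j0 s - n * φ j0 a) • G0 s := by
  obtain ⟨G, hG, h1⟩ := D.div d _ (WB_trans p h l F hf (n • a)) hf0
  refine ⟨fun j s => G j (s + -(n • a)), fun j => WB_trans p h l F (hG j) _,
    ∑ j, (φ j a / φ j0 a) • fun s => G j (s + -(n • a)), ?_, fun s => ?_⟩
  · refine Submodule.sum_mem _ fun j _ => ?_
    by_cases hj : φ j a = 0
    · rw [hj, zero_div, zero_smul]
      exact Submodule.zero_mem _
    · refine Submodule.smul_mem _ _ (WB_anti p h l F ha ?_ (WB_trans p h l F (hG j) _))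
      have := hmin j hj
      omega
  · have h2 := h1 (s + -(n • a))
    rw [neg_add_cancel_right] at h2
    rw [h2, Finset.sum_apply, Finset.smul_sum, ← Finset.sum_add_distrib]
    refine Finset.sum_congr rfl fun j _ => ?_
    rw [VF_add p h l (D.mem j), VF_neg p h l (D.mem j), VF_nsmul p h l (D.mem j),
      Pi.smul_apply, smul_smul, ← add_smul]
    congr 1
    field_simp
    ring

include ha hp D hj0 hmin in
lemma yd_divm (m : ℕ) (hm : m ≤ p) (d : ℕ) (f : (Fin r → k) → B) (hf : f ∈ WB p h l F d)
    (hf0 : ∀ n < m, ∀ t ∈ T, f (t + n • a) = 0) :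
    ∃ G : Fin r → (Fin r → k) → B, (∀ j, G j ∈ WB p h l F (d + l' j)) ∧
      ∃ G0 ∈ WB (k := k) p h l F (d + m * l' j0), ∀ s,
        f s = ∑ i, (φ i s - φ i a / φ j0 a * φ j0 s) • G i s +
          (∏ n ∈ Finset.range m, (φ j0 s - (n : ℕ) * φ j0 a)) • G0 s := by
  induction m with
  | zero =>
    refine ⟨0, fun j => Submodule.zero_mem _, f, ?_, fun s => ?_⟩
    · rw [zero_mul, add_zero]
      exact hf
    · simp
  | succ m ih =>
    obtain ⟨G, hG, G0, hG0, h1⟩ := ih (by omega) fun n hn => hf0 n (by omega)
    have hv : ∀ t ∈ T, G0 (t + m • a) = 0 := by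
      intro t ht
      have h2 := h1 (t + m • a)
      rw [hf0 m (by omega) t ht] at h2
      have h3 : ∀ i, φ i (t + m • a) = m * φ i a := by
        intro i
        rw [VF_add p h l (D.mem i), VF_nsmul p h l (D.mem i), D.van t ht, zero_add]
      have h4 : ∑ i, (φ i (t + m • a) - φ i a / φ j0 a * φ j0 (t + m • a)) •
          G i (t + m • a) = 0 := by
        refine Finset.sum_eq_zero fun i _ => ?_
        have h5 : φ i (t + m • a) - φ i a / φ j0 a * φ j0 (t + m • a) = 0 := by
          rw [h3, h3]
          field_simp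
          ring
        rw [h5, zero_smul]
      rw [h4, zero_add] at h2
      have h6 : ∏ n ∈ Finset.range m, (φ j0 (t + m • a) - (n : ℕ) * φ j0 a) ≠ 0 := by
        rw [Finset.prod_ne_zero_iff]
        intro n hn h7
        rw [Finset.mem_range] at hn
        rw [h3, ← sub_mul] at h7
        have h8 : ((m : ℕ) : k) = (n : ℕ) :=
          sub_eq_zero.1 ((mul_eq_zero.1 h7).resolve_right hj0)
        have h9 := CharP.natCast_injOn_Iio k p (x₁ := m) (x₂ := n) (by
          rw [Set.mem_Iio]; omega) (by rw [Set.mem_Iio]; omega) h8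
        omega
      exact (smul_eq_zero.1 h2.symm).resolve_left h6
    obtain ⟨G1, hG1, G2, hG2, h2⟩ := yd_div1 ha D a j0 hj0 hmin m _ G0 hG0 hv
    have hW : (fun s => ∏ n ∈ Finset.range m, (φ j0 s - (n : ℕ) * φ j0 a)) ∈
        WF p h l (m * l' j0) := by
      have h3 := prod_mem_WF p h l (Finset.range m)
        (fun n : ℕ => fun s => φ j0 s - (n : ℕ) * φ j0 a) (fun _ => l' j0) (by
          intro n _
          exact Submodule.sub_mem _ (VF_le p h l _ (D.mem j0)) (const_mem_WF p h l _ _))
      rw [Finset.sum_const, Finset.card_range, smul_eq_mul] at h3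
      have h4 : (fun s => ∏ n ∈ Finset.range m, (φ j0 s - (n : ℕ) * φ j0 a)) =
          ∏ n ∈ Finset.range m, fun s => φ j0 s - (n : ℕ) * φ j0 a := by
        funext s
        rw [Finset.prod_apply]
      rwa [h4]
    refine ⟨fun i s => G i s + (∏ n ∈ Finset.range m, (φ j0 s - (n : ℕ) * φ j0 a)) • G1 i s,
      fun i => ?_, G2, ?_, fun s => ?_⟩
    · refine Submodule.add_mem _ (hG i) (WB_smul p h l F hW ?_)
      have h3 : d + l' i + m * l' j0 = d + m * l' j0 + l' i := by ring
      rw [h3]
      exact hG1 i
    · have h3 : d + (m + 1) * l' j0 = d + m * l' j0 + l' j0 := by ring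
      rw [h3]
      exact hG2
    · rw [h1 s, h2 s, Finset.prod_range_succ, smul_add, ← add_assoc, mul_smul]
      congr 1
      rw [Finset.smul_sum, ← Finset.sum_add_distrib]
      refine Finset.sum_congr rfl fun i _ => ?_
      rw [smul_add, smul_smul, smul_smul]
      congr 1
      congr 1
      ring

include ha hp D hj0 hmin in
/-- One step. -/
lemma yd_step : ∃ (φ' : Fin r → (Fin r → k) → k) (l'' : Fin r → ℕ),
    YD p h l F (T ⊔ AddSubgroup.zmultiples a) φ' l'' := by
  classical
  have hφ : ∀ x ∈ T ⊔ AddSubgroup.zmultiples a, ∃ n : ℤ, ∀ i, φ i x = n * φ i a := by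
    intro x hx
    obtain ⟨t, ht, z, hz, rfl⟩ := AddSubgroup.mem_sup.1 hx
    obtain ⟨n, rfl⟩ := AddSubgroup.mem_zmultiples_iff.1 hz
    refine ⟨n, fun i => ?_⟩
    rw [VF_add p h l (D.mem i), VF_zsmul p h l (D.mem i), D.van t ht, zero_add]
  have hprod : ∀ s, ∏ n ∈ Finset.range p, (φ j0 s - (n : ℕ) * φ j0 a) =
      φ j0 s ^ p - φ j0 a ^ (p - 1) * φ j0 s := by
    intro s
    have h1 := prod_sub_nat p (φ j0 s / φ j0 a)
    have h2 : ∏ n ∈ Finset.range p, (φ j0 s - (n : ℕ) * φ j0 a) =
        φ j0 a ^ p * ∏ n ∈ Finset.range p, (φ j0 s / φ j0 a - (n : ℕ)) := by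
      conv_rhs => rw [← Finset.card_range p, ← Finset.prod_const, Finset.card_range]
      rw [← Finset.prod_mul_distrib]
      refine Finset.prod_congr rfl fun n _ => ?_
      field_simp
    rw [h2, h1]
    have h3 : φ j0 a ^ p = φ j0 a ^ (p - 1) * φ j0 a := by
      rw [← pow_succ, Nat.sub_add_cancel hp.out.one_le]
    rw [mul_sub, div_pow, mul_div_cancel₀ _ (pow_ne_zero _ hj0)]
    congr 1
    rw [h3]
    field_simp
  refine ⟨fun i => if i = j0 then fun s => ∏ n ∈ Finset.range p, (φ j0 s - (n : ℕ) * φ j0 a)
    else fun s => φ i s - φ i a / φ j0 a * φ j0 s, fun i => if i = j0 then p * l' j0 else l' i,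
    ?_, ?_, ?_, ?_, ?_⟩
  · intro i
    by_cases hi : i = j0
    · simp only [if_pos hi]
      have h1 : (fun s => ∏ n ∈ Finset.range p, (φ j0 s - (n : ℕ) * φ j0 a)) =
          (fun s => φ j0 s ^ p) - (φ j0 a ^ (p - 1)) • φ j0 := by
        funext s
        rw [hprod]
        rfl
      rw [h1]
      refine Submodule.sub_mem _ (VF_frob p h l (D.mem j0)) (Submodule.smul_mem _ _ ?_)
      exact VF_mono p h l (Nat.le_mul_of_pos_left _ hp.out.pos) (D.mem j0)
    · simp only [if_neg hi]
      have h1 : (fun s => φ i s - φ i a / φ j0 a * φ j0 s) =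
          φ i - (φ i a / φ j0 a) • φ j0 := rfl
      rw [h1]
      refine Submodule.sub_mem _ (D.mem i) ?_
      by_cases hia : φ i a = 0
      · rw [hia, zero_div, zero_smul]
        exact Submodule.zero_mem _
      · exact Submodule.smul_mem _ _ (VF_mono p h l (hmin i hia) (D.mem j0))
  · intro i
    by_cases hi : i = j0
    · simp only [if_pos hi]
      exact Nat.mul_pos hp.out.pos (D.pos j0)
    · simp only [if_neg hi]
      exact D.pos i
  · intro x hx i
    obtain ⟨n, hn⟩ := hφ x hx
    by_cases hi : i = j0
    · simp only [if_pos hi]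
      rw [hprod, hn]
      have h1 : ((n : ℤ) : k) ^ p = n := by
        have := map_intCast (frobenius k p) n
        rwa [frobenius_def] at this
      rw [mul_pow, h1]
      have h3 : φ j0 a ^ p = φ j0 a ^ (p - 1) * φ j0 a := by
        rw [← pow_succ, Nat.sub_add_cancel hp.out.one_le]
      rw [h3]
      ring
    · simp only [if_neg hi]
      rw [hn, hn]
      field_simp
      ring
  · intro s hs
    have h1 := hs j0
    simp only [if_true] at h1
    obtain ⟨n, _, hn⟩ := Finset.prod_eq_zero_iff.1 h1
    have h2 : ∀ i, φ i s = n * φ i a := by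
      intro i
      by_cases hi : i = j0
      · rw [hi]
        exact sub_eq_zero.1 hn
      · have h3 := hs i
        simp only [if_neg hi] at h3
        rw [sub_eq_zero] at h3
        rw [h3, sub_eq_zero.1 hn]
        field_simp
    have h3 : s - n • a ∈ T := by
      refine D.ker _ fun i => ?_
      rw [sub_eq_add_neg, VF_add p h l (D.mem i), VF_neg p h l (D.mem i),
        VF_nsmul p h l (D.mem i), h2 i, add_neg_cancel]
    have h4 : s = (s - n • a) + n • a := by rw [sub_add_cancel]
    rw [h4]
    refine AddSubgroup.add_mem_sup h3 (AddSubgroup.nsmul_mem _ ?_ _)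
    exact AddSubgroup.mem_zmultiples a
  · intro d f hf hf0
    obtain ⟨G, hG, G0, hG0, h1⟩ := yd_divm ha D a j0 hj0 hmin p le_rfl d f hf (by
      intro n _ t ht
      refine hf0 _ (AddSubgroup.add_mem_sup ht (AddSubgroup.nsmul_mem _ ?_ _))
      exact AddSubgroup.mem_zmultiples a)
    refine ⟨fun i => if i = j0 then G0 else G i, fun i => ?_, fun s => ?_⟩
    · by_cases hi : i = j0
      · simp only [if_pos hi]
        exact hG0
      · simp only [if_neg hi]
        exact hG i
    · rw [h1 s, ← Finset.add_sum_erase Finset.univ _ (Finset.mem_univ j0),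
        ← Finset.add_sum_erase Finset.univ (fun i => (if i = j0 then
          (fun s => ∏ n ∈ Finset.range p, (φ j0 s - (n : ℕ) * φ j0 a))
          else fun s => φ i s - φ i a / φ j0 a * φ j0 s) s • (if i = j0 then G0 else G i) s)
          (Finset.mem_univ j0)]
      have h2 : φ j0 s - φ j0 a / φ j0 a * φ j0 s = 0 := by
        field_simp
        ring
      rw [h2, zero_smul, zero_add, add_comm]
      simp only [if_true]
      congr 1
      refine Finset.sum_congr rfl fun i hi => ?_
      simp only [if_neg (Finset.ne_of_mem_erase hi)]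

end step

include ha hp in
/-- The existence of the coordinates. -/
theorem exists_yd (hl : ∀ j, 0 < l j) (T : AddSubgroup (Fin r → k)) [Finite T] :
    ∃ (φ : Fin r → (Fin r → k) → k) (l' : Fin r → ℕ), YD p h l F T φ l' := by
  classical
  have key : ∀ s : Finset (Fin r → k), ∃ (φ : Fin r → (Fin r → k) → k) (l' : Fin r → ℕ),
      YD p h l F (AddSubgroup.closure (s : Set (Fin r → k))) φ l' := by
    intro s
    induction s using Finset.induction_on with
    | empty =>
      rw [Finset.coe_empty, AddSubgroup.closure_empty]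
      exact ⟨_, _, yd_bot p h l F ha hl⟩
    | insert a s has ih =>
      obtain ⟨φ, l', D⟩ := ih
      rw [Finset.coe_insert, Set.insert_eq, AddSubgroup.closure_union,
        ← AddSubgroup.zmultiples_eq_closure, sup_comm]
      by_cases haT : a ∈ AddSubgroup.closure (s : Set (Fin r → k))
      · have h1 : AddSubgroup.closure (s : Set (Fin r → k)) ⊔ AddSubgroup.zmultiples a =
            AddSubgroup.closure (s : Set (Fin r → k)) := by
          rw [sup_eq_left, AddSubgroup.zmultiples_le]
          exact haT
        rw [h1]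
        exact ⟨φ, l', D⟩
      · have h1 : ∃ j, φ j a ≠ 0 := by
          by_contra hcon
          push Not at hcon
          exact haT (D.ker a hcon)
        obtain ⟨j, hj⟩ := h1
        obtain ⟨j0, hj0, hmin⟩ := Finset.exists_min_image
          (Finset.univ.filter fun i => φ i a ≠ 0) l' ⟨j, by simp [hj]⟩
        have hj0' : φ j0 a ≠ 0 := by simpa using hj0
        exact yd_step ha D a j0 hj0' (fun i hi => hmin i (by simp [hi]))
  have _ : Fintype T := Fintype.ofFinite T
  have hcl : AddSubgroup.closure (((Finset.univ : Finset T).image (fun a : T => (a : Fin r → k)) :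
      Finset (Fin r → k)) : Set (Fin r → k)) = T := by
    have h1 : (((Finset.univ : Finset T).image (fun a : T => (a : Fin r → k)) :
        Finset (Fin r → k)) : Set (Fin r → k)) = (T : Set (Fin r → k)) := by
      ext x
      simp
    rw [h1, AddSubgroup.closure_eq]
  have h2 := key ((Finset.univ : Finset T).image (fun a : T => (a : Fin r → k)))
  rwa [hcl] at h2

end vals

end Pool.Agent.J6H48.MG
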