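import Pool.Agent.Y177.Ga.Act
import Pool.Agent.J6H48.MG.Fun

/-! Actions of vector groups. -/

set_option autoImplicit false
set_option linter.unusedSectionVars false

universe u

namespace Pool.Agent.J6H48.MG

open MvPolynomial

section coassoc

variable {B : Type u} [CommRing B] {r : ℕ}

/-- The coefficients of the comultiplication. -/
lemma coeff_aeval_add (q : MvPolynomial (Fin r) B) (α β : Fin r →₀ ℕ) :
    coeff α (coeff β (aeval (R := B)
      (fun j => (X j + C (X j) : MvPolynomial (Fin r) (MvPolynomial (Fin r) B))) q)) =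
      (∏ j, (α j + β j).choose (α j)) • coeff (α + β) q := by
  classical
  induction q using MvPolynomial.induction_on generalizing α β with
  | C a =>
    have h1 : (aeval (R := B) (fun j => (X j + C (X j) :
        MvPolynomial (Fin r) (MvPolynomial (Fin r) B))) (C a)) = C (C a) := aeval_C _ a
    rw [h1, coeff_C, coeff_C]
    by_cases hβ : β = 0
    · subst hβ
      rw [if_pos rfl, coeff_C]
      by_cases hα : α = 0
      · subst hα
        simp
      · rw [if_neg (Ne.symm hα), if_neg (by simpa using Ne.symm hα), smul_zero]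
    · rw [if_neg (Ne.symm hβ), coeff_zero, if_neg, smul_zero]
      intro h2
      apply hβ
      ext j
      have h3 := DFunLike.congr_fun h2 j
      simp only [Finsupp.coe_zero, Pi.zero_apply, Finsupp.coe_add, Pi.add_apply] at h3
      simp only [Finsupp.coe_zero, Pi.zero_apply]
      omega
  | add p q hp hq => rw [map_add, coeff_add, coeff_add, coeff_add, hp, hq, smul_add]
  | mul_X p i hp =>
    have hmC : ∀ (P : MvPolynomial (Fin r) (MvPolynomial (Fin r) B)),
        coeff β (P * C (X i)) = coeff β P * X i := fun P => by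
      rw [mul_comm, coeff_C_mul, mul_comm]
    rw [map_mul, aeval_X, mul_add, coeff_add, coeff_add, hmC, coeff_mul_X', coeff_mul_X',
      coeff_mul_X']
    have hfac : ∀ α' β' : Fin r →₀ ℕ, (∀ j, j ≠ i → α' j = α j) → (∀ j, j ≠ i → β' j = β j) →
        (∏ j, (α' j + β' j).choose (α' j)) = (α' i + β' i).choose (α' i) *
          ∏ j ∈ Finset.univ.erase i, (α j + β j).choose (α j) := by
      intro α' β' hα hβ
      rw [← Finset.mul_prod_erase Finset.univ _ (Finset.mem_univ i)]
      congr 1
      refine Finset.prod_congr rfl fun j hj => ?_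
      rw [hα j (Finset.ne_of_mem_erase hj), hβ j (Finset.ne_of_mem_erase hj)]
    have hsub : ∀ (γ : Fin r →₀ ℕ) (j : Fin r), j ≠ i →
        (γ - Finsupp.single i 1 : Fin r →₀ ℕ) j = γ j := by
      intro γ j hj
      rw [Finsupp.tsub_apply, Finsupp.single_eq_of_ne hj, Nat.sub_zero]
    have hsubi : ∀ γ : Fin r →₀ ℕ, (γ - Finsupp.single i 1 : Fin r →₀ ℕ) i = γ i - 1 := by
      intro γ
      rw [Finsupp.tsub_apply, Finsupp.single_eq_same]
    by_cases hα : α i = 0
    · by_cases hβ : β i = 0
      · rw [if_neg (by simpa using hβ), if_neg (by simpa using hα), if_neg (by simp [hα, hβ]),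
          coeff_zero, add_zero, smul_zero]
      · rw [if_pos (by simpa using hβ), if_neg (by simpa using hα), if_pos (by simp [hα, hβ]),
          add_zero, hp]
        have e1 : α + (β - Finsupp.single i 1) = α + β - Finsupp.single i 1 := by
          ext j
          by_cases hj : j = i
          · subst hj
            simp only [Finsupp.coe_add, Pi.add_apply, hsubi]
            omega
          · simp only [Finsupp.coe_add, Pi.add_apply, hsub _ _ hj]
        rw [e1, hfac α (β - Finsupp.single i 1) (fun _ _ => rfl) (hsub β),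
          hfac α β (fun _ _ => rfl) (fun _ _ => rfl), hα, Nat.choose_zero_right,
          Nat.choose_zero_right]
    · by_cases hβ : β i = 0
      · rw [if_neg (by simpa using hβ), if_pos (by simpa using hα), if_pos (by simp [hα, hβ]),
          coeff_zero, zero_add, hp]
        have e1 : α - Finsupp.single i 1 + β = α + β - Finsupp.single i 1 := by
          ext j
          by_cases hj : j = i
          · subst hj
            simp only [Finsupp.coe_add, Pi.add_apply, hsubi]
            omega
          · simp only [Finsupp.coe_add, Pi.add_apply, hsub _ _ hj]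
        rw [e1, hfac (α - Finsupp.single i 1) β (hsub α) (fun _ _ => rfl),
          hfac α β (fun _ _ => rfl) (fun _ _ => rfl), hβ, add_zero, add_zero, Nat.choose_self,
          Nat.choose_self]
      · rw [if_pos (by simpa using hβ), if_pos (by simpa using hα), if_pos (by simp [hα, hβ]),
          hp, hp]
        have e1 : α + (β - Finsupp.single i 1) = α + β - Finsupp.single i 1 := by
          ext j
          by_cases hj : j = i
          · subst hj
            simp only [Finsupp.coe_add, Pi.add_apply, hsubi]
            omega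
          · simp only [Finsupp.coe_add, Pi.add_apply, hsub _ _ hj]
        have e2 : α - Finsupp.single i 1 + β = α + β - Finsupp.single i 1 := by
          ext j
          by_cases hj : j = i
          · subst hj
            simp only [Finsupp.coe_add, Pi.add_apply, hsubi]
            omega
          · simp only [Finsupp.coe_add, Pi.add_apply, hsub _ _ hj]
        rw [e1, e2, ← add_smul, hfac α (β - Finsupp.single i 1) (fun _ _ => rfl) (hsub β),
          hfac (α - Finsupp.single i 1) β (hsub α) (fun _ _ => rfl),
          hfac α β (fun _ _ => rfl) (fun _ _ => rfl), ← add_mul, hsubi, hsubi]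
        congr 2
        obtain ⟨a, ha⟩ : ∃ a, α i = a + 1 := ⟨α i - 1, by omega⟩
        obtain ⟨b, hb⟩ : ∃ b, β i = b + 1 := ⟨β i - 1, by omega⟩
        rw [ha, hb, Nat.add_sub_cancel, Nat.add_sub_cancel]
        have e3 : a + 1 + (b + 1) = (a + b + 1) + 1 := by ring
        have e4 : a + 1 + b = a + b + 1 := by ring
        have e5 : a + (b + 1) = a + b + 1 := by ring
        rw [e3, e4, e5, Nat.choose_succ_succ (a + b + 1) a, add_comm]

end coassoc

section act

variable {k B : Type u} [Field k] [CommRing B] [Algebra k B] {r : ℕ}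

/-- The axioms of an action of a vector group, in terms of the coefficients of the coaction. -/
structure IsVAct (ρ : B →ₐ[k] MvPolynomial (Fin r) B) : Prop where
  zero : ∀ b, (ρ b).coeff 0 = b
  iter : ∀ α β b, (ρ ((ρ b).coeff β)).coeff α =
    (∏ j, (α j + β j).choose (α j)) • (ρ b).coeff (α + β)

/-- The coassociativity is the axiom on the iterates. -/
lemma isVAct_of (ρ : B →ₐ[k] MvPolynomial (Fin r) B) (h0 : ∀ b, (ρ b).coeff 0 = b)
    (h1 : (MvPolynomial.mapAlgHom ρ).comp ρ = ((aeval (R := B) (fun j => (X j + C (X j) :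
      MvPolynomial (Fin r) (MvPolynomial (Fin r) B)))).restrictScalars k).comp ρ) :
    IsVAct ρ where
  zero := h0
  iter α β b := by
    have h2 := congrArg (fun f : B →ₐ[k] MvPolynomial (Fin r) (MvPolynomial (Fin r) B) =>
      coeff α (coeff β (f b))) h1
    simp only [AlgHom.comp_apply, AlgHom.restrictScalars_apply, coeff_aeval_add] at h2
    rw [← h2, MvPolynomial.mapAlgHom_apply, coeff_map]
    rfl

variable {ρ : B →ₐ[k] MvPolynomial (Fin r) B} (hρ : IsVAct ρ)

include hρ in
lemma comm_iter (α β : Fin r →₀ ℕ) (b : B) :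
    (ρ ((ρ b).coeff β)).coeff α = (ρ ((ρ b).coeff α)).coeff β := by
  rw [hρ.iter, hρ.iter, add_comm α β]
  congr 1
  refine Finset.prod_congr rfl fun j _ => ?_
  rw [Nat.choose_symm_add, add_comm (α j) (β j)]

include hρ in
lemma coassoc (b : B) : MvPolynomial.map (ρ : B →+* MvPolynomial (Fin r) B) (ρ b) =
    aeval (R := B) (fun j => (X j + C (X j) :
      MvPolynomial (Fin r) (MvPolynomial (Fin r) B))) (ρ b) := by
  ext β α
  rw [coeff_aeval_add, coeff_map, ← hρ.iter]
  rfl

/-- The one-parameter actions. -/
noncomputable def pj (ρ : B →ₐ[k] MvPolynomial (Fin r) B) (j : Fin r) : B →ₐ[k] Polynomial B :=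
  ((aeval (R := B) (fun i => if i = j then (Polynomial.X : Polynomial B) else 0)).restrictScalars
    k).comp ρ

lemma coeff_aeval_single (j : Fin r) (q : MvPolynomial (Fin r) B) (n : ℕ) :
    (aeval (R := B) (fun i => if i = j then (Polynomial.X : Polynomial B) else 0) q).coeff n =
      coeff (Finsupp.single j n) q := by
  classical
  induction q using MvPolynomial.induction_on generalizing n with
  | C a =>
    have h1 : aeval (R := B) (fun i => if i = j then (Polynomial.X : Polynomial B) else 0) (C a) =
      Polynomial.C a := aeval_C _ a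
    rw [h1, Polynomial.coeff_C, coeff_C]
    by_cases hn : n = 0
    · rw [if_pos hn, if_pos (by rw [hn, Finsupp.single_zero])]
    · rw [if_neg hn, if_neg]
      intro h2
      exact hn (Finsupp.single_eq_zero.1 h2.symm)
  | add p q hp hq => rw [map_add, Polynomial.coeff_add, coeff_add, hp, hq]
  | mul_X p i hp =>
    rw [map_mul, aeval_X, coeff_mul_X']
    by_cases hi : i = j
    · subst hi
      rw [if_pos rfl]
      cases n with
      | zero =>
        rw [Polynomial.coeff_mul_X_zero, if_neg (by simp)]
      | succ n =>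
        rw [Polynomial.coeff_mul_X, if_pos (by simp), hp]
        congr 1
        ext i'
        rw [Finsupp.tsub_apply]
        by_cases h : i' = i
        · subst h
          simp
        · simp [Finsupp.single_eq_of_ne h]
    · rw [if_neg hi, mul_zero, Polynomial.coeff_zero, if_neg]
      rw [Finsupp.mem_support_iff, Finsupp.single_eq_of_ne hi]
      simp

lemma coeff_pj (j : Fin r) (b : B) (n : ℕ) :
    (pj ρ j b).coeff n = (ρ b).coeff (Finsupp.single j n) := coeff_aeval_single j _ n

include hρ in
lemma isAct_pj (j : Fin r) : Pool.Agent.Y177.Ga.IsAct (pj ρ j) where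
  zero b := by rw [coeff_pj, Finsupp.single_zero, hρ.zero]
  iter i i' b := by
    classical
    rw [coeff_pj, coeff_pj, coeff_pj, hρ.iter, ← Finsupp.single_add]
    congr 1
    rw [Finset.prod_eq_single j]
    · simp
    · intro j' _ hj'
      simp [Finsupp.single_eq_of_ne hj']
    · intro h
      exact absurd (Finset.mem_univ j) h

/-- The automorphism given by a point of the vector group. -/
noncomputable def sv (ρ : B →ₐ[k] MvPolynomial (Fin r) B) (t : Fin r → k) : B →ₐ[k] B :=
  ((aeval (R := B) (fun j => algebraMap k B (t j))).restrictScalars k).comp ρ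

lemma sv_apply (t : Fin r → k) (b : B) :
    sv ρ t b = eval (fun j => algebraMap k B (t j)) (ρ b) := by
  exact congrArg (fun φ : MvPolynomial (Fin r) B →+* B => φ (ρ b))
    (MvPolynomial.coe_aeval_eq_eval (fun j => algebraMap k B (t j)))

lemma sv_eq_sum (t : Fin r → k) (b : B) (S : Finset (Fin r →₀ ℕ)) (hS : (ρ b).support ⊆ S) :
    sv ρ t b = ∑ α ∈ S, (∏ j, t j ^ α j) • (ρ b).coeff α := by
  rw [sv_apply, MvPolynomial.eval_eq', ← Finset.sum_subset hS]
  · refine Finset.sum_congr rfl fun α _ => ?_
    rw [Algebra.smul_def, map_prod, mul_comm]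
    congr 1
    exact Finset.prod_congr rfl fun j _ => by rw [map_pow]
  · intro α _ hα
    rw [MvPolynomial.notMem_support_iff.1 hα, smul_zero]

include hρ in
lemma sv_zero (b : B) : sv ρ 0 b = b := by
  classical
  rw [sv_eq_sum 0 b (insert 0 (ρ b).support) (Finset.subset_insert _ _),
    Finset.sum_eq_single 0]
  · simp [hρ.zero]
  · intro α _ hα
    obtain ⟨j, hj⟩ : ∃ j, α j ≠ 0 := by
      by_contra hcon
      push Not at hcon
      exact hα (Finsupp.ext hcon)
    rw [Finset.prod_eq_zero (Finset.mem_univ j), zero_smul]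
    rw [Pi.zero_apply, zero_pow hj]
  · intro h
    exact absurd (Finset.mem_insert_self _ _) h

include hρ in
lemma sv_add (s t : Fin r → k) (b : B) : sv ρ s (sv ρ t b) = sv ρ (s + t) b := by
  let ψ : MvPolynomial (Fin r) (MvPolynomial (Fin r) B) →+* B :=
    (eval (fun j => algebraMap k B (s j))).comp
      (eval (fun j => C (algebraMap k B (t j)) : Fin r → MvPolynomial (Fin r) B))
  have h1 : ∀ q : MvPolynomial (Fin r) B,
      ψ (MvPolynomial.map (ρ : B →+* MvPolynomial (Fin r) B) q) =
        sv ρ s (eval (fun j => algebraMap k B (t j)) q) := by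
    intro q
    induction q using MvPolynomial.induction_on with
    | C a =>
      rw [map_C, eval_C, sv_apply]
      simp [ψ]
    | add p q hp hq => rw [map_add, map_add, map_add, map_add, hp, hq]
    | mul_X p i hp =>
      rw [map_mul, map_mul, map_mul, map_mul, hp, map_X, eval_X, AlgHom.commutes]
      simp [ψ]
  have h2 : ∀ q : MvPolynomial (Fin r) B,
      ψ (aeval (R := B) (fun j => (X j + C (X j) :
        MvPolynomial (Fin r) (MvPolynomial (Fin r) B))) q) =
        eval (fun j => algebraMap k B ((s + t) j)) q := by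
    intro q
    induction q using MvPolynomial.induction_on with
    | C a =>
      have h3 : (aeval (R := B) (fun j => (X j + C (X j) :
        MvPolynomial (Fin r) (MvPolynomial (Fin r) B))) (C a)) = C (C a) := aeval_C _ a
      rw [h3, eval_C]
      simp [ψ]
    | add p q hp hq => rw [map_add, map_add, map_add, hp, hq]
    | mul_X p i hp =>
      rw [map_mul, map_mul, map_mul, hp, aeval_X, eval_X]
      simp [ψ, add_comm]
  rw [sv_apply t, ← h1, coassoc hρ, h2, ← sv_apply]

include hρ in
lemma sv_coeff (t : Fin r → k) (α : Fin r →₀ ℕ) (b : B) :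
    (ρ (sv ρ t b)).coeff α = sv ρ t ((ρ b).coeff α) := by
  rw [sv_eq_sum t b _ subset_rfl, sv_eq_sum t ((ρ b).coeff α) (ρ b).support]
  · rw [map_sum, coeff_sum]
    refine Finset.sum_congr rfl fun β _ => ?_
    rw [map_smul, coeff_smul, comm_iter hρ]
  · intro β hβ
    rw [MvPolynomial.mem_support_iff] at hβ ⊢
    intro h
    apply hβ
    rw [comm_iter hρ, h, map_zero, coeff_zero]

/-- The invariants of a group of translations. -/
noncomputable def ivv (ρ : B →ₐ[k] MvPolynomial (Fin r) B) (T : AddSubgroup (Fin r → k)) :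
    Subalgebra k B where
  carrier := {c | ∀ a ∈ T, sv ρ a c = c}
  mul_mem' := fun hx hy a ha => by rw [map_mul, hx a ha, hy a ha]
  add_mem' := fun hx hy a ha => by rw [map_add, hx a ha, hy a ha]
  algebraMap_mem' := fun c a _ => AlgHom.commutes _ c

lemma mem_ivv {T : AddSubgroup (Fin r → k)} {c : B} : c ∈ ivv ρ T ↔ ∀ a ∈ T, sv ρ a c = c :=
  Iff.rfl

variable {F : ℕ → Ideal B} {l : Fin r → ℕ}
  (ha : ∀ a b, a ≤ b → F b ≤ F a)
  (hdiv : ∀ d, ∀ b ∈ F d, ∀ α, (ρ b).coeff α ∈ F (d + ∑ j, α j * l j))

include ha hdiv in
lemma sv_mem (t : Fin r → k) (d : ℕ) (b : B) (hb : b ∈ F d) : sv ρ t b ∈ F d := by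
  rw [sv_eq_sum t b _ subset_rfl]
  refine Ideal.sum_mem _ fun α _ => ?_
  rw [Algebra.smul_def]
  exact Ideal.mul_mem_left _ _ (ha _ _ (by omega) (hdiv d b hb α))

end act

end Pool.Agent.J6H48.MG
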