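import Pool.Agent.Y177.Ga.Main
import Pool.Agent.J6H48.MG.Vec

/-! Quotients by finite elementary abelian groups. -/

set_option autoImplicit false
set_option linter.unusedSectionVars false

universe u v

namespace Pool.Agent.J6H48.MG

open Polynomial Pool.Agent.H920R2 Pool.Agent.H519R3.RS Pool.Agent.Y177.Ga

section grp

variable {k C κ : Type u} [Field k] [CommRing C] [Algebra k C] [AddCommGroup κ]
  (σ : κ → C →ₐ[k] C)

/-- The invariants of a group. -/
def ivg (T : AddSubgroup κ) : Subalgebra k C where
  carrier := {c | ∀ a ∈ T, σ a c = c}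
  mul_mem' := fun hx hy a ha => by rw [map_mul, hx a ha, hy a ha]
  add_mem' := fun hx hy a ha => by rw [map_add, hx a ha, hy a ha]
  algebraMap_mem' := fun c a _ => AlgHom.commutes _ c

variable {σ} (h0 : ∀ x, σ 0 x = x) (hadd : ∀ a b x, σ a (σ b x) = σ (a + b) x)

/-- The automorphism given by an element of the group. -/
def sE (h0 : ∀ x, σ 0 x = x) (hadd : ∀ a b x, σ a (σ b x) = σ (a + b) x) (a : κ) : C ≃ₐ[k] C :=
  AlgEquiv.ofAlgHom (σ a) (σ (-a))
    (AlgHom.ext fun x => by
      rw [AlgHom.comp_apply, hadd, add_neg_cancel, h0]; rfl)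
    (AlgHom.ext fun x => by
      rw [AlgHom.comp_apply, hadd, neg_add_cancel, h0]; rfl)

include hadd in
lemma s_ivg (T : AddSubgroup κ) (a : κ) (x : C) (hx : x ∈ ivg σ T) : σ a x ∈ ivg σ T := by
  intro b hb
  rw [hadd, add_comm, ← hadd, hx b hb]

/-- The action on the invariants. -/
def sT (h0 : ∀ x, σ 0 x = x) (hadd : ∀ a b x, σ a (σ b x) = σ (a + b) x) (T : AddSubgroup κ)
    (a : κ) : ivg σ T ≃ₐ[k] ivg σ T :=
  AlgEquiv.ofAlgHom
    (((σ a).comp (ivg σ T).val).codRestrict (ivg σ T) fun x => s_ivg hadd T a x x.2)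
    (((σ (-a)).comp (ivg σ T).val).codRestrict (ivg σ T) fun x => s_ivg hadd T (-a) x x.2)
    (AlgHom.ext fun x => by
      apply Subtype.ext
      change σ a (σ (-a) x) = x
      rw [hadd, add_neg_cancel, h0])
    (AlgHom.ext fun x => by
      apply Subtype.ext
      change σ (-a) (σ a x) = x
      rw [hadd, neg_add_cancel, h0])

lemma coe_sT (T : AddSubgroup κ) (a : κ) (x : ivg σ T) :
    ((sT h0 hadd T a x : ivg σ T) : C) = σ a x := rfl

include h0 hadd in
lemma s_iter (n : ℕ) (a : κ) (x : C) : (σ a)^[n] x = σ (n • a) x := by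
  induction n generalizing x with
  | zero => rw [Function.iterate_zero, id, zero_smul, h0]
  | succ n ih => rw [Function.iterate_succ_apply, ih, hadd, succ_nsmul]

section tau

variable {L : Type u} [IsDomain C] [Field L] [Algebra k L] [Algebra C L] [IsScalarTower k C L]
  [IsFractionRing C L]

/-- The extension of the action to the field of fractions. -/
noncomputable def tg (L : Type u) [Field L] [Algebra k L] [Algebra C L] [IsScalarTower k C L]
    [IsFractionRing C L] (h0 : ∀ x, σ 0 x = x) (hadd : ∀ a b x, σ a (σ b x) = σ (a + b) x)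
    (a : κ) : L ≃ₐ[k] L :=
  IsFractionRing.fieldEquivOfAlgEquiv k L L (sE h0 hadd a)

lemma tg_map (a : κ) (b : C) : tg L h0 hadd a (algebraMap C L b) = algebraMap C L (σ a b) :=
  IsFractionRing.fieldEquivOfAlgEquiv_algebraMap k L L (sE h0 hadd a) b

lemma tg_add (a b : κ) (x : L) : tg L h0 hadd a (tg L h0 hadd b x) = tg L h0 hadd (a + b) x := by
  obtain ⟨y, z, -, rfl⟩ := IsFractionRing.div_surjective (A := C) x
  simp only [map_div₀, tg_map, hadd]

lemma tg_zero (x : L) : tg L h0 hadd 0 x = x := by
  obtain ⟨y, z, -, rfl⟩ := IsFractionRing.div_surjective (A := C) x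
  simp only [map_div₀, tg_map, h0]

lemma tg_iter (n : ℕ) (a : κ) (x : L) : (tg L h0 hadd a)^[n] x = tg L h0 hadd (n • a) x := by
  induction n generalizing x with
  | zero => rw [Function.iterate_zero, id, zero_smul, tg_zero]
  | succ n ih => rw [Function.iterate_succ_apply, ih, tg_add, succ_nsmul]

end tau

variable [IsDomain C] {F : ℕ → Ideal C} (hF : IsFilt F)
  (hσF : ∀ (b : κ) (d : ℕ) (x : C), x ∈ F d → σ b x ∈ F d)
  {p : ℕ} (hp : p.Prime) (hpk : (p : k) = 0)

include h0 hadd hσF hp hpk in
/-- One step. -/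
theorem good_stepG (T : AddSubgroup κ) [Fintype T] (a : κ) (hpa : p • a = 0) (l : ℕ) (hl : 0 < l)
    (hdiv : ∀ (d : ℕ) (x : C), x ∈ F d → x ∈ ivg σ T → σ a x - x ∈ F (d + l))
    (hrad : ∀ Q : Ideal (rG (IsScalarTower.toAlgHom k C (FractionRing C)) hF), Q.IsPrime →
      (∀ (e : ℕ) (c : C), c ∈ F e → c ∈ ivg σ T →
        JQ (IsScalarTower.toAlgHom k C (FractionRing C)) hF Q ((e : ℤ) + l) (σ a c - c)) →
      ∀ (d : ℕ) (x : FractionRing C)
        (h : hm d x ∈ rG (IsScalarTower.toAlgHom k C (FractionRing C)) hF), 0 < d →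
        (⟨hm d x, h⟩ : rG (IsScalarTower.toAlgHom k C (FractionRing C)) hF) ∈ Q)
    (hG : Good k (isFilt_restr hF (ivg σ T))) (T' : AddSubgroup κ)
    (hT' : ∀ x, x ∈ ivg σ T' ↔ x ∈ ivg σ T ∧ σ a x = x) :
    Good k (isFilt_restr hF (ivg σ T')) := by
  classical
  let L := FractionRing C
  let g : C →ₐ[k] L := IsScalarTower.toAlgHom k C L
  have hinj : Function.Injective g := IsFractionRing.injective C L
  let gT : ivg σ T →ₐ[k] L := g.comp (ivg σ T).val
  have hinjT : Function.Injective gT := hinj.comp Subtype.val_injective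
  let τ : L ≃ₐ[k] L := tg L h0 hadd a
  have hτ : ∀ b : C, τ (g b) = g (σ a b) := fun b => tg_map h0 hadd a b
  have hcard : 0 < Fintype.card T := Fintype.card_pos
  have hle : ivg σ T' ≤ ivg σ T := fun x hx => ((hT' x).1 hx).1
  have hFT := isFilt_restr hF (ivg σ T)
  -- the Rees algebras
  let R := rG g hF
  let R' := rG gT hFT
  have hRR : R' ≤ R := by
    intro f hf d
    obtain ⟨b, hb, hb'⟩ := hf d
    exact ⟨b, hb, hb'⟩
  have hint : ∀ f ∈ R, IsIntegral R' f := by
    intro f hf
    refine int_group (fun b => (tl (tg L h0 hadd b) : LP L →+* LP L)) T ?_ ?_ R R' ?_ ?_ f hf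
    · intro b c x
      apply AddMonoidAlgebra.coeff_injective
      ext d
      change (tl (tg L h0 hadd b) (tl (tg L h0 hadd c) x)).coeff d =
        (tl (tg L h0 hadd (b + c)) x).coeff d
      rw [tl_coeff, tl_coeff, tl_coeff, tg_add]
    · intro x
      apply AddMonoidAlgebra.coeff_injective
      ext d
      change (tl (tg L h0 hadd 0) x).coeff d = x.coeff d
      rw [tl_coeff, tg_zero]
    · intro b _ x hx d
      obtain ⟨c, hc, hc'⟩ := hx d
      refine ⟨σ b c, hσF b _ c hc, ?_⟩
      change _ = (tl (tg L h0 hadd b) x).coeff d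
      rw [tl_coeff, ← hc']
      exact (tg_map h0 hadd b c).symm
    · intro x hx hxT d
      obtain ⟨c, hc, hc'⟩ := hx d
      have hcT : c ∈ ivg σ T := by
        intro b hb
        apply hinj
        have h1 : (tl (tg L h0 hadd b) x).coeff d = x.coeff d :=
          congrArg (fun y : LP L => y.coeff d) (hxT b hb)
        rw [tl_coeff, ← hc'] at h1
        exact (tg_map h0 hadd b c).symm.trans h1
      exact ⟨⟨c, hcT⟩, hc, hc'⟩
  refine good_fixE hp hpk (sT h0 hadd T a) ?_ hFT hG (l := l) hl ?_ gT hinjT τ ?_ ?_ ?_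
    (Subalgebra.inclusion hle)
    (Subalgebra.inclusion_injective hle) ?_ (isFilt_restr hF (ivg σ T')) (fun d c' => Iff.rfl)
  · -- order `p`
    intro b
    have h1 : ∀ (n : ℕ) (x : ivg σ T), (((sT h0 hadd T a)^[n] x : ivg σ T) : C) =
        (σ a)^[n] (x : C) := by
      intro n
      induction n with
      | zero => intro x; rfl
      | succ n ih =>
        intro x
        rw [Function.iterate_succ_apply, ih, Function.iterate_succ_apply, coe_sT]
    apply Subtype.ext
    rw [h1, s_iter h0 hadd, hpa, h0]
  · intro d b hb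
    exact hdiv d b hb b.2
  · intro b
    exact hτ b
  · intro x
    change (tg L h0 hadd a)^[p] x = x
    rw [tg_iter, hpa, tg_zero]
  · -- the radical condition
    intro Q' hQ' hQ'T d x h hd
    let _ : Algebra R' R := (Subalgebra.inclusion hRR).toRingHom.toAlgebra
    have hintA : Algebra.IsIntegral R' R := by
      constructor
      rintro ⟨f, hf⟩
      obtain ⟨P, hP, hP0⟩ := hint f hf
      refine ⟨P, hP, ?_⟩
      have h2 : Function.Injective R.val := Subtype.val_injective
      apply h2
      rw [map_zero, ← AlgHom.coe_toRingHom, Polynomial.hom_eval₂]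
      exact hP0
    obtain ⟨Q, -, hQ, hQQ⟩ := Ideal.exists_ideal_over_prime_of_isIntegral Q' (⊥ : Ideal R) (by
      intro y hy
      rw [Ideal.mem_comap, Ideal.mem_bot] at hy
      have h1 : y = 0 := by
        apply Subtype.ext
        have h2 : ((algebraMap R' R y : R) : LP L) = ((0 : R) : LP L) := congrArg Subtype.val hy
        exact h2
      rw [h1]
      exact Q'.zero_mem)
    have hto : ∀ (y : LP L) (hy : y ∈ R') (hy' : y ∈ R), (⟨y, hy⟩ : R') ∈ Q' ↔
        (⟨y, hy'⟩ : R) ∈ Q := by
      intro y hy hy'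
      rw [← hQQ, Ideal.mem_comap]
      rfl
    rw [hto _ h (hRR h)]
    refine hrad Q hQ ?_ d x (hRR h) hd
    intro e c hc hcT
    have h1 : hm ((e : ℤ) + (l : ℕ))
        (gT (sT h0 hadd T a ⟨c, hcT⟩ - ⟨c, hcT⟩)) ∈ R' := by
      refine hm_mem_rG gT hFT ?_
      have h2 : ((e : ℤ) + (l : ℕ)).toNat = e + l := by
        omega
      rw [h2]
      exact hdiv e c hc hcT
    have h2 := hQ'T e ⟨c, hcT⟩ (by rw [Int.toNat_natCast]; exact hc) h1
    rw [hto _ h1 (hRR h1)] at h2
    exact ⟨hRR h1, h2⟩
  · rintro ⟨b, hb⟩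
    constructor
    · intro h
      exact ⟨⟨b, (hT' b).2 ⟨hb, congrArg Subtype.val h⟩⟩, rfl⟩
    · rintro ⟨⟨b', hb'⟩, h⟩
      have h6 : b' = b := congrArg Subtype.val h
      subst h6
      exact Subtype.ext ((hT' b').1 hb').2

include h0 hadd hσF hp hpk in
/-- The invariants of a finite group of translations. -/
theorem good_ivg (A : AddSubgroup κ) [Finite A] (hpA : ∀ a ∈ A, p • a = 0) (hG : Good k hF)
    (hne : F 1 ≠ ⊥)
    (hstep : ∀ (T : AddSubgroup κ) (_ : Finite T), T ≤ A → ∀ a ∈ A, a ∉ T → ∃ l : ℕ, 0 < l ∧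
      (∀ (d : ℕ) (x : C), x ∈ F d → x ∈ ivg σ T → σ a x - x ∈ F (d + l)) ∧
      ∀ Q : Ideal (rG (IsScalarTower.toAlgHom k C (FractionRing C)) hF), Q.IsPrime →
      (∀ (e : ℕ) (c : C), c ∈ F e → c ∈ ivg σ T →
        JQ (IsScalarTower.toAlgHom k C (FractionRing C)) hF Q ((e : ℤ) + l) (σ a c - c)) →
      ∀ (d : ℕ) (x : FractionRing C)
        (h : hm d x ∈ rG (IsScalarTower.toAlgHom k C (FractionRing C)) hF), 0 < d →
        (⟨hm d x, h⟩ : rG (IsScalarTower.toAlgHom k C (FractionRing C)) hF) ∈ Q) :
    Good k (isFilt_restr hF (ivg σ A)) ∧ restr F (ivg σ A) 1 ≠ ⊥ := by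
  classical
  have _ : Fintype A := Fintype.ofFinite A
  refine ⟨?_, ?_⟩
  · -- induction over finite subsets
    have key : ∀ s : Finset κ, (∀ a ∈ s, a ∈ A) →
        Good k (isFilt_restr hF (ivg σ (AddSubgroup.closure (s : Set κ)))) := by
      intro s
      induction s using Finset.induction_on with
      | empty =>
        intro _
        refine (good_top hF hG hne ?_).1
        rw [eq_top_iff]
        intro x _ a ha
        rw [Finset.coe_empty, AddSubgroup.closure_empty, AddSubgroup.mem_bot] at ha
        rw [ha, h0]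
      | insert a s has ih =>
        intro hs
        have h1 := ih fun b hb => hs b (Finset.mem_insert_of_mem hb)
        have haA : a ∈ A := hs a (Finset.mem_insert_self _ _)
        have hTA : AddSubgroup.closure (s : Set κ) ≤ A := by
          rw [AddSubgroup.closure_le]
          intro b hb
          exact hs b (Finset.mem_insert_of_mem hb)
        have hmem : ∀ x, x ∈ ivg σ (AddSubgroup.closure ((insert a s : Finset κ) : Set κ)) ↔
            x ∈ ivg σ (AddSubgroup.closure (s : Set κ)) ∧ σ a x = x := by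
          intro x
          constructor
          · intro hx
            refine ⟨fun b hb => hx b (AddSubgroup.closure_mono ?_ hb),
              hx a (AddSubgroup.subset_closure (by simp))⟩
            intro c hc
            exact Finset.mem_coe.2 (Finset.mem_insert_of_mem (Finset.mem_coe.1 hc))
          · rintro ⟨h2, h3⟩ b hb
            induction hb using AddSubgroup.closure_induction with
            | mem b hb =>
              rcases Finset.mem_insert.1 (Finset.mem_coe.1 hb) with rfl | h4
              · exact h3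
              · exact h2 b (AddSubgroup.subset_closure h4)
            | zero => rw [h0]
            | add b c _ _ hb hc => rw [← hadd, hc, hb]
            | neg b _ hb =>
              conv_lhs => rw [← hb]
              rw [hadd, neg_add_cancel, h0]
        by_cases haT : a ∈ AddSubgroup.closure (s : Set κ)
        · have h2 : ivg σ (AddSubgroup.closure ((insert a s : Finset κ) : Set κ)) =
              ivg σ (AddSubgroup.closure (s : Set κ)) := by
            ext x
            rw [hmem]
            exact ⟨fun h => h.1, fun h => ⟨h, h a haT⟩⟩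
          have h3 : ∀ (S S' : Subalgebra k C), S' = S → Good k (isFilt_restr hF S) →
              Good k (isFilt_restr hF S') := by
            rintro S S' rfl h
            exact h
          exact h3 _ _ h2 h1
        · have hfin : Finite (AddSubgroup.closure (s : Set κ)) :=
            Finite.Set.subset (A : Set κ) hTA
          have _ : Fintype (AddSubgroup.closure (s : Set κ)) := Fintype.ofFinite _
          obtain ⟨l, hl, h4, h5⟩ := hstep _ hfin hTA a haA haT
          exact good_stepG h0 hadd hF hσF hp hpk (AddSubgroup.closure (s : Set κ)) a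
            (hpA a haA) l hl h4 h5 h1 _ hmem
    have hcl : AddSubgroup.closure (((Finset.univ : Finset A).image (fun a : A => (a : κ)) :
        Finset κ) : Set κ) = A := by
      have h1 : (((Finset.univ : Finset A).image (fun a : A => (a : κ)) : Finset κ) : Set κ) =
          (A : Set κ) := by
        ext x
        simp
      rw [h1, AddSubgroup.closure_eq]
    have h2 := key ((Finset.univ : Finset A).image (fun a : A => (a : κ))) (by
      intro a ha
      obtain ⟨b, -, rfl⟩ := Finset.mem_image.1 ha
      exact b.2)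
    have h3 : ∀ (S S' : AddSubgroup κ), S = S' → Good k (isFilt_restr hF (ivg σ S)) →
        Good k (isFilt_restr hF (ivg σ S')) := by
      rintro S S' rfl h
      exact h
    exact h3 _ _ hcl h2
  · -- a nonzero invariant element
    obtain ⟨x, hx, hx0⟩ := Submodule.exists_mem_ne_zero_of_ne_bot hne
    let σ' : κ → C →+* C := fun a => (σ a : C →+* C)
    have hadd' : ∀ a b x, σ' a (σ' b x) = σ' (a + b) x := fun a b x => hadd a b x
    have h1 : (nr σ' A x).coeff 0 = ∏ b : A, σ (b : κ) x := by
      rw [coeff_zero_eq_eval_zero]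
      unfold nr
      rw [eval_prod]
      refine Finset.prod_congr rfl fun b _ => ?_
      simp [σ']
    have h2 : ∏ b : A, σ (b : κ) x ∈ ivg σ A := by
      intro a ha
      have h3 := nr_coeff_fixed σ' A hadd' x a ha 0
      rw [h1] at h3
      exact h3
    have h3 : ∏ b : A, σ (b : κ) x ∈ F 1 := by
      rw [← Finset.mul_prod_erase Finset.univ (fun b : A => σ (b : κ) x)
        (Finset.mem_univ (0 : A))]
      refine Ideal.mul_mem_right _ _ ?_
      rw [ZeroMemClass.coe_zero, h0]
      exact hx
    have h4 : ∏ b : A, σ (b : κ) x ≠ 0 := by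
      rw [Finset.prod_ne_zero_iff]
      intro b _ h5
      apply hx0
      have h6 := congrArg (σ (-(b : κ))) h5
      rw [hadd, neg_add_cancel, h0, map_zero] at h6
      exact h6
    intro hbot
    have h6 : (⟨∏ b : A, σ (b : κ) x, h2⟩ : ivg σ A) ∈ restr F (ivg σ A) 1 := h3
    rw [hbot, Ideal.mem_bot] at h6
    exact h4 (congrArg Subtype.val h6)

end grp

end Pool.Agent.J6H48.MG
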