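import Pool.Agent.Y177.Ga.Main
import Pool.Agent.J6H48.MG.Vec

/-! Quotients by products of Frobenius kernels in vector groups. -/

set_option autoImplicit false
set_option linter.unusedSectionVars false

universe u v

namespace Pool.Agent.J6H48.MG

open MvPolynomial Pool.Agent.H920R2 Pool.Agent.H519R3.RS Pool.Agent.Y177.Ga

section frs

variable {k B : Type u} [Field k] [CommRing B] [Algebra k B] {ρ : B →ₐ[k] Polynomial B}
  (p : ℕ) [hp : Fact p.Prime] [CharP k p] (hρ : IsAct ρ)

include hp hρ in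
lemma frs_succ (r : ℕ) (b : B) : b ∈ frs ρ (p ^ (r + 1)) ↔
    b ∈ frs ρ (p ^ r) ∧ (ρ b).coeff (p ^ r) = 0 := by
  constructor
  · intro hb
    exact ⟨fun j hj hjq => hb j hj (hjq.trans_le (Nat.pow_le_pow_right hp.out.pos (Nat.le_succ r))),
      hb _ (pow_pos hp.out.pos r) (Nat.pow_lt_pow_right hp.out.one_lt (Nat.lt_succ_self r))⟩
  · rintro ⟨hb, hb0⟩ j hj hjq
    have hHD := isHD_DR p hρ r
    have hb0' : DR p hρ r 1 ⟨b, hb⟩ = 0 := by
      apply Subtype.ext
      rw [coe_DR, one_mul]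
      exact hb0
    by_cases hdvd : p ^ r ∣ j
    · obtain ⟨m, rfl⟩ := hdvd
      have hm0 : 0 < m := Nat.pos_of_ne_zero fun h => by
        rw [h, mul_zero] at hj; omega
      have hmp : m < p := by
        rw [pow_succ] at hjq
        exact Nat.lt_of_mul_lt_mul_left hjq
      have h3 := hHD.iter (m - 1) 1 ⟨b, hb⟩
      rw [hb0', map_zero, Nat.sub_add_cancel hm0] at h3
      have h4 : m.choose (m - 1) = m := by
        have h5 := Nat.choose_symm_of_eq_add (n := m) (a := m - 1) (b := 1) (by omega)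
        rw [h5, Nat.choose_one_right]
      rw [h4, ← Nat.cast_smul_eq_nsmul k] at h3
      have h5 : (m : k) ≠ 0 := by
        rw [Ne, CharP.cast_eq_zero_iff k p]
        intro h
        exact absurd (Nat.le_of_dvd hm0 h) (by omega)
      have h6 := (smul_eq_zero.1 h3.symm).resolve_left h5
      have h7 := congrArg (fun y : frs ρ (p ^ r) => (y : B)) h6
      change (ρ b).coeff (m * p ^ r) = 0 at h7
      rwa [mul_comm] at h7
    · exact coeff_frs p hρ r hb j hdvd

end frs

section ch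

variable {k B : Type u} [Field k] [CommRing B] [Algebra k B] {r : ℕ}
  {ρ : B →ₐ[k] MvPolynomial (Fin r) B}

/-- The invariants of the infinitesimal part. -/
noncomputable def CH (ρ : B →ₐ[k] MvPolynomial (Fin r) B) (p : ℕ) (h : Fin r → ℕ) :
    Subalgebra k B := ⨅ j, frs (pj ρ j) (p ^ h j)

lemma mem_CH {p : ℕ} {h : Fin r → ℕ} {b : B} : b ∈ CH ρ p h ↔
    ∀ j, b ∈ frs (pj ρ j) (p ^ h j) := Algebra.mem_iInf

lemma mem_CH' {p : ℕ} {h : Fin r → ℕ} {b : B} : b ∈ CH ρ p h ↔
    ∀ j n, 0 < n → n < p ^ h j → (ρ b).coeff (Finsupp.single j n) = 0 := by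
  rw [mem_CH]
  refine forall_congr' fun j => ?_
  rw [mem_frs]
  refine forall_congr' fun n => ?_
  rw [coeff_pj]

variable (hρ : IsVAct ρ) (p : ℕ) [hp : Fact p.Prime] [CharP k p] (h : Fin r → ℕ)

include hρ hp in
lemma coeff_CH {b : B} (hb : b ∈ CH ρ p h) (α : Fin r →₀ ℕ) (i : Fin r)
    (hi : ¬ p ^ h i ∣ α i) : (ρ b).coeff α = 0 := by
  classical
  have hq : 0 < p ^ h i := pow_pos hp.out.pos _
  have hm0 : 0 < α i % p ^ h i := Nat.pos_of_ne_zero fun h0 => hi (Nat.dvd_of_mod_eq_zero h0)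
  have h1 := hρ.iter (α - Finsupp.single i (α i % p ^ h i))
    (Finsupp.single i (α i % p ^ h i)) b
  rw [mem_CH'.1 hb i _ hm0 (Nat.mod_lt _ hq), map_zero, coeff_zero, tsub_add_cancel_of_le] at h1
  · have h2 : ∏ j, ((α - Finsupp.single i (α i % p ^ h i) : Fin r →₀ ℕ) j +
        (Finsupp.single i (α i % p ^ h i)) j).choose
        ((α - Finsupp.single i (α i % p ^ h i) : Fin r →₀ ℕ) j) ≡ 1 [MOD p] := by
      rw [Finset.prod_eq_single i]
      · rw [Finsupp.tsub_apply, Finsupp.single_eq_same]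
        have h3 := lucas_pow p (h i) (α i / p ^ h i) (α i / p ^ h i) (α i % p ^ h i)
          (Nat.mod_lt _ hq)
        have h4 : α i - α i % p ^ h i = p ^ h i * (α i / p ^ h i) := by
          have := Nat.div_add_mod (α i) (p ^ h i)
          omega
        rw [h4]
        rwa [Nat.choose_self] at h3
      · intro j _ hj
        rw [Finsupp.tsub_apply, Finsupp.single_eq_of_ne hj, Nat.sub_zero, add_zero,
          Nat.choose_self]
      · intro hcon
        exact absurd (Finset.mem_univ i) hcon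
    rw [nsmul_congr' k p h2, one_smul] at h1
    exact h1.symm
  · rw [Finsupp.single_le_iff]
    exact Nat.mod_le _ _

variable {F : ℕ → Ideal B} {l : Fin r → ℕ}
  (hdiv : ∀ d, ∀ b ∈ F d, ∀ α, (ρ b).coeff α ∈ F (d + ∑ j, α j * l j))

include hρ hp hdiv in
lemma sv_WB {d : ℕ} {b : B} (hb : b ∈ F d) (hbC : b ∈ CH ρ p h) :
    (fun s => sv ρ s b) ∈ WB (k := k) p h l F d := by
  have h1 : (fun s => sv ρ s b) = ∑ α ∈ (ρ b).support,
      fun s : Fin r → k => (∏ j, s j ^ α j) • (ρ b).coeff α := by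
    funext s
    rw [Finset.sum_apply]
    exact sv_eq_sum s b _ subset_rfl
  rw [h1]
  refine Submodule.sum_mem _ fun α hα => ?_
  have h2 : ∀ i, p ^ h i ∣ α i := by
    intro i
    by_contra hcon
    exact (MvPolynomial.mem_support_iff.1 hα) (coeff_CH hρ p h hbC α i hcon)
  refine Submodule.subset_span ⟨_, _, mon_mem p h l (fun i => α i / p ^ h i) le_rfl,
    (ρ b).coeff α, ?_, ?_⟩
  · have h3 : ∑ j, α j / p ^ h j * (p ^ h j * l j) = ∑ j, α j * l j := by
      refine Finset.sum_congr rfl fun j _ => ?_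
      rw [← mul_assoc, Nat.div_mul_cancel (h2 j)]
    rw [h3]
    exact hdiv d b hb α
  · funext s
    congr 1
    unfold mon
    refine Finset.prod_congr rfl fun j _ => ?_
    rw [← pow_mul, Nat.mul_div_cancel' (h2 j)]

/-- The higher derivations on the invariants. -/
noncomputable def DC (hρ : IsVAct ρ) (h : Fin r → ℕ) (j : Fin r) (n : ℕ) :
    CH ρ p h →ₗ[k] CH ρ p h where
  toFun x := ⟨(pj ρ j x).coeff (n * p ^ h j), by
    rw [mem_CH]
    intro i
    by_cases hi : i = j
    · subst hi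
      exact coeff_mem_frs p (isAct_pj hρ i) (h i) (mem_CH.1 x.2 i) n
    · intro m hm hm'
      have h1 : (ρ (x : B)).coeff (Finsupp.single i m) = 0 := mem_CH'.1 x.2 i m hm hm'
      rw [coeff_pj, coeff_pj, comm_iter hρ, h1, map_zero, coeff_zero]⟩
  map_add' x y := by
    apply Subtype.ext
    change (pj ρ j ((x : B) + y)).coeff _ = _
    rw [map_add, Polynomial.coeff_add]
    rfl
  map_smul' c x := by
    apply Subtype.ext
    change (pj ρ j (c • (x : B))).coeff _ = _
    rw [map_smul, Polynomial.coeff_smul]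
    rfl

lemma coe_DC (j : Fin r) (n : ℕ) (x : CH ρ p h) :
    ((DC p hρ h j n x : CH ρ p h) : B) = (pj ρ j (x : B)).coeff (n * p ^ h j) := rfl

lemma isHD_DC (j : Fin r) : IsHD (DC p hρ h j) where
  zero b := by
    apply Subtype.ext
    rw [coe_DC, zero_mul, (isAct_pj hρ j).zero]
  one n hn := by
    apply Subtype.ext
    rw [coe_DC]
    change (pj ρ j 1).coeff _ = 0
    rw [map_one, Polynomial.coeff_one, if_neg]
    have := pow_pos hp.out.pos (h j)
    exact (Nat.mul_pos hn this).ne'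
  mul n a b := by
    apply Subtype.ext
    rw [coe_DC]
    change (pj ρ j ((a : B) * b)).coeff _ = _
    rw [mul_frs p (isAct_pj hρ j) (h j) (mem_CH.1 a.2 j) (mem_CH.1 b.2 j),
      AddSubmonoidClass.coe_finsetSum]
    rfl
  fin b := by
    refine ⟨(pj ρ j (b : B)).natDegree + 1, fun n hn => ?_⟩
    apply Subtype.ext
    rw [coe_DC]
    refine Polynomial.coeff_eq_zero_of_natDegree_lt ?_
    have := pow_pos hp.out.pos (h j)
    have h1 : n * 1 ≤ n * p ^ h j := Nat.mul_le_mul_left _ this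
    omega
  iter i i' b := by
    apply Subtype.ext
    rw [coe_DC, coe_DC, iter_frs p (isAct_pj hρ j) (h j)]
    rfl

end ch

section triv

variable {k B : Type u} [Field k] [CommRing B] [Algebra k B] {r : ℕ}

/-- Local trivializations of an action of a vector group on the weighted blowup of a filtration. -/
structure Triv (ρ : B →ₐ[k] MvPolynomial (Fin r) B) (F : ℕ → Ideal B) (l : Fin r → ℕ)
    {ι : Type v} (Δ : ι → B) (Λ : ι → ℕ) (θ : ι → Fin r → B) : Prop where
  memΔ : ∀ J, Δ J ∈ F (Λ J)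
  memθ : ∀ J j, θ J j ∈ F (Λ J - l j)
  le : ∀ J j, l j ≤ Λ J
  map : ∀ J j, ρ (θ J j) = C (θ J j) + C (Δ J) * X j
  gen : ∀ d, 1 ≤ d → ∀ a ∈ F d, ∃ N : ℕ, a ^ N ∈ Ideal.span {y | ∃ J, ∃ b ∈ F (N * d - Λ J),
    y = b * Δ J}

variable {ρ : B →ₐ[k] MvPolynomial (Fin r) B} {F : ℕ → Ideal B} {l : Fin r → ℕ}
  {ι : Type v} {Δ : ι → B} {Λ : ι → ℕ} {θ : ι → Fin r → B}
  (hρ : IsVAct ρ) (hT : Triv ρ F l Δ Λ θ)

include hρ hT in
lemma rho_Δ (J : ι) : ρ (Δ J) = C (Δ J) := by
  classical
  ext α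
  rw [coeff_C]
  by_cases hα : α = 0
  · rw [hα, if_pos rfl, hρ.zero]
  · rw [if_neg (Ne.symm hα)]
    obtain ⟨j, hj⟩ : ∃ j, α j ≠ 0 := by
      by_contra hcon
      push Not at hcon
      exact hα (Finsupp.ext hcon)
    have h1 : (ρ (θ J j)).coeff (Finsupp.single j 1) = Δ J := by
      rw [hT.map, coeff_add, coeff_C, coeff_C_mul, coeff_X, if_neg, if_pos rfl, mul_one,
        zero_add]
      intro h0
      have := (Finsupp.single_eq_zero.1 h0.symm)
      omega
    have h2 := hρ.iter α (Finsupp.single j 1) (θ J j)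
    rw [h1, hT.map, coeff_add, coeff_C, coeff_C_mul, coeff_X, if_neg, if_neg, mul_zero,
      add_zero, smul_zero] at h2
    · exact h2
    · intro h0
      have h3 := DFunLike.congr_fun h0 j
      simp only [Finsupp.coe_add, Pi.add_apply, Finsupp.single_eq_same] at h3
      omega
    · intro h0
      have h3 := DFunLike.congr_fun h0 j
      simp only [Finsupp.coe_add, Pi.add_apply, Finsupp.single_eq_same, Finsupp.coe_zero,
        Pi.zero_apply] at h3
      omega

include hρ hT in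
lemma sv_Δ (t : Fin r → k) (J : ι) : sv ρ t (Δ J) = Δ J := by
  rw [sv_apply, rho_Δ hρ hT, eval_C]

include hT in
lemma sv_θ (t : Fin r → k) (J : ι) (j : Fin r) : sv ρ t (θ J j) = θ J j + t j • Δ J := by
  rw [sv_apply, hT.map, map_add, map_mul, eval_C, eval_C, eval_X, Algebra.smul_def, mul_comm]

variable (p : ℕ) [hp : Fact p.Prime] [CharP k p] [CharP B p] (h : Fin r → ℕ)

include hρ hT in
lemma Δ_mem_CH (J : ι) : Δ J ∈ CH ρ p h := by
  rw [mem_CH']
  intro j n hn _
  rw [rho_Δ hρ hT, coeff_C, if_neg]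
  intro h0
  have := (Finsupp.single_eq_zero.1 h0.symm)
  omega

include hT hp in
lemma rho_θ_pow (J : ι) (j : Fin r) (e : ℕ) :
    ρ (θ J j ^ p ^ e) = C (θ J j ^ p ^ e) + C (Δ J ^ p ^ e) * X j ^ p ^ e := by
  rw [map_pow, hT.map, add_pow_char_pow, mul_pow, C_pow, C_pow]

include hT hp in
lemma θ_mem_CH (J : ι) (j : Fin r) (e : ℕ) (he : h j ≤ e) : θ J j ^ p ^ e ∈ CH ρ p h := by
  classical
  rw [mem_CH']
  intro i n hn hn'
  rw [rho_θ_pow hT, coeff_add, coeff_C, coeff_C_mul, coeff_X_pow, if_neg, if_neg, mul_zero,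
    add_zero]
  · intro h0
    by_cases hij : i = j
    · subst hij
      have h3 := DFunLike.congr_fun h0 i
      simp only [Finsupp.single_eq_same] at h3
      have := Nat.pow_le_pow_right hp.out.pos he
      omega
    · have h3 := DFunLike.congr_fun h0 j
      rw [Finsupp.single_eq_same, Finsupp.single_eq_of_ne (Ne.symm hij)] at h3
      have := pow_pos hp.out.pos e
      omega
  · intro h0
    have := (Finsupp.single_eq_zero.1 h0.symm)
    omega

include hp in
lemma pow_mem_CH (H : ℕ) (hH : ∀ i, h i ≤ H) (b : B) : b ^ p ^ H ∈ CH ρ p h := by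
  rw [mem_CH]
  intro i j hj hjq
  exact pow_q_mem (ρ := pj ρ i) p H b j hj
    (hjq.trans_le (Nat.pow_le_pow_right hp.out.pos (hH i)))

variable (hF : IsFilt F)

include hρ hT hp hF in
/-- The invariants of the infinitesimal part are generated in the same way. -/
lemma genC (d : ℕ) (hd : 1 ≤ d) (a : CH ρ p h) (ha : a ∈ restr F (CH ρ p h) d) :
    ∃ N : ℕ, a ^ N ∈ Ideal.span {y : CH ρ p h | ∃ J, ∃ b ∈ restr F (CH ρ p h) (N * d - Λ J),
      y = b * ⟨Δ J, Δ_mem_CH hρ hT p h J⟩} := by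
  obtain ⟨H, hH⟩ : ∃ H, ∀ i, h i ≤ H :=
    ⟨∑ i, h i, fun i => Finset.single_le_sum (f := h) (fun _ _ => Nat.zero_le _)
      (Finset.mem_univ i)⟩
  have hq : 0 < p ^ H := pow_pos hp.out.pos H
  obtain ⟨N, hN⟩ := hT.gen d hd a ha
  have key : ∀ m : ℕ, ∀ z ∈ Ideal.span {y | ∃ J, ∃ b ∈ F (m - Λ J), y = b * Δ J},
      (⟨z ^ p ^ H, pow_mem_CH p h H hH z⟩ : CH ρ p h) ∈
        Ideal.span {y : CH ρ p h | ∃ J, ∃ b ∈ restr F (CH ρ p h) (p ^ H * m - Λ J),
          y = b * ⟨Δ J, Δ_mem_CH hρ hT p h J⟩} := by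
    intro m z hz
    induction hz using Submodule.span_induction with
    | mem z hz =>
      obtain ⟨J, b, hb, rfl⟩ := hz
      refine Ideal.subset_span ⟨J, ⟨b ^ p ^ H, pow_mem_CH p h H hH b⟩ *
        ⟨Δ J, Δ_mem_CH hρ hT p h J⟩ ^ (p ^ H - 1), ?_, ?_⟩
      · change b ^ p ^ H * Δ J ^ (p ^ H - 1) ∈ F _
        have h1 := pow_mem_F hF (p ^ H) _ b hb
        have h2 := pow_mem_F hF (p ^ H - 1) _ _ (hT.memΔ J)
        refine hF.anti _ _ ?_ (hF.mul _ _ (Ideal.mul_mem_mul h1 h2))
        obtain ⟨q', hq'⟩ : ∃ q', p ^ H = q' + 1 := ⟨p ^ H - 1, by omega⟩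
        rw [hq', Nat.add_sub_cancel]
        rcases le_total (Λ J) m with h3 | h3
        · obtain ⟨c, rfl⟩ := Nat.exists_eq_add_of_le h3
          rw [Nat.add_sub_cancel_left]
          have e1 : (q' + 1) * (Λ J + c) = Λ J + (c * (q' + 1) + Λ J * q') := by ring
          rw [e1, Nat.add_sub_cancel_left]
        · have e1 : (q' + 1) * m ≤ (q' + 1) * Λ J := Nat.mul_le_mul_left _ h3
          have e2 : (q' + 1) * Λ J = Λ J + Λ J * q' := by ring
          omega
      · apply Subtype.ext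
        change (b * Δ J) ^ p ^ H = b ^ p ^ H * Δ J ^ (p ^ H - 1) * Δ J
        rw [mul_pow, mul_assoc, ← pow_succ, Nat.sub_add_cancel hq]
    | zero =>
      have h1 : (⟨(0 : B) ^ p ^ H, pow_mem_CH p h H hH 0⟩ : CH ρ p h) = 0 :=
        Subtype.ext (zero_pow hq.ne')
      rw [h1]
      exact Ideal.zero_mem _
    | add y z _ _ hy hz =>
      have h1 : (⟨(y + z) ^ p ^ H, pow_mem_CH p h H hH _⟩ : CH ρ p h) =
          ⟨y ^ p ^ H, pow_mem_CH p h H hH y⟩ + ⟨z ^ p ^ H, pow_mem_CH p h H hH z⟩ :=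
        Subtype.ext (add_pow_char_pow y z p H)
      rw [h1]
      exact Ideal.add_mem _ hy hz
    | smul c z _ hz =>
      have h1 : (⟨(c • z) ^ p ^ H, pow_mem_CH p h H hH _⟩ : CH ρ p h) =
          ⟨c ^ p ^ H, pow_mem_CH p h H hH c⟩ * ⟨z ^ p ^ H, pow_mem_CH p h H hH z⟩ :=
        Subtype.ext (mul_pow c z _)
      rw [h1]
      exact Ideal.mul_mem_left _ _ hz
  refine ⟨p ^ H * N, ?_⟩
  have h1 := key (N * d) _ hN
  have h2 : (⟨((a : B) ^ N) ^ p ^ H, pow_mem_CH p h H hH _⟩ : CH ρ p h) = a ^ (p ^ H * N) := by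
    apply Subtype.ext
    push_cast
    rw [← pow_mul, mul_comm]
  rw [h2, ← mul_assoc] at h1
  exact h1

variable (hdiv : ∀ d, ∀ b ∈ F d, ∀ α, (ρ b).coeff α ∈ F (d + ∑ j, α j * l j))

include hρ hT hp hF hdiv in
/-- The steps. -/
lemma dstep_CH (j : Fin r) :
    DStep p F (CH ρ p h) (CH ρ p (fun i => if i = j then h i + 1 else h i)) := by
  classical
  have hHD := isHD_DC hρ p h j
  have hcoe : ∀ x : CH ρ p h, ((DC p hρ h j 1 x : CH ρ p h) : B) =
      (ρ (x : B)).coeff (Finsupp.single j (p ^ h j)) := by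
    intro x
    rw [coe_DC, one_mul, coeff_pj]
  have hθ : ∀ J, (DC p hρ h j 1 ⟨θ J j ^ p ^ h j, θ_mem_CH hT p h J j (h j) le_rfl⟩ :
      CH ρ p h) = ⟨Δ J, Δ_mem_CH hρ hT p h J⟩ ^ p ^ h j := by
    intro J
    apply Subtype.ext
    rw [hcoe]
    change (ρ (θ J j ^ p ^ h j)).coeff _ = Δ J ^ p ^ h j
    rw [rho_θ_pow hT, coeff_add, coeff_C, coeff_C_mul, coeff_X_pow, if_neg, if_pos rfl, mul_one,
      zero_add]
    intro h0
    have h3 := Finsupp.single_eq_zero.1 h0.symm
    have := pow_pos hp.out.pos (h j)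
    omega
  refine ⟨Derivation.mk' (DC p hρ h j 1) (hd_leibniz hHD), 0, l j * p ^ h j, ?_, ?_, ?_, ?_, ?_⟩
  · intro b
    have h3 : (Derivation.mk' (DC p hρ h j 1) (hd_leibniz hHD))^[p] b = 0 := by
      change (DC p hρ h j 1)^[p] b = 0
      rw [hd_iterate hHD, ← Nat.cast_smul_eq_nsmul k]
      have h4 : ((p.factorial : ℕ) : k) = 0 := by
        rw [CharP.cast_eq_zero_iff k p]
        exact Nat.dvd_factorial hp.out.pos le_rfl
      rw [h4, zero_smul]
    rw [h3, map_zero, zero_mul]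
  · intro d a ha
    change DC p hρ h j 1 a ∈ _
    rw [mem_restr, hcoe]
    have h3 := hdiv d a ha (Finsupp.single j (p ^ h j))
    have h4 : ∑ i, (Finsupp.single j (p ^ h j)) i * l i = l j * p ^ h j := by
      rw [Finset.sum_eq_single j]
      · rw [Finsupp.single_eq_same, mul_comm]
      · intro i _ hi
        rw [Finsupp.single_eq_of_ne hi, zero_mul]
      · intro hcon
        exact absurd (Finset.mem_univ j) hcon
    rwa [h4] at h3
  · intro P hP hPa a ha
    obtain ⟨N, hN⟩ := genC hρ hT p h hF 1 le_rfl a ha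
    refine hP.mem_of_pow_mem N ((Ideal.span_le.2 ?_) hN)
    rintro _ ⟨J, b, _, rfl⟩
    refine P.mul_mem_left _ (hP.mem_of_pow_mem (p ^ h j) ?_)
    rw [← hθ]
    exact hPa _
  · intro d hd a ha
    obtain ⟨N, hN⟩ := genC hρ hT p h hF d hd a ha
    refine ⟨N * p ^ h j, ?_⟩
    unfold leadI
    refine Ideal.mem_sup_right ?_
    have hfr : ∀ y z : CH ρ p h, (y + z) ^ p ^ h j = y ^ p ^ h j + z ^ p ^ h j := by
      intro y z
      apply Subtype.ext
      push_cast
      exact add_pow_char_pow (y : B) z p (h j)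
    have key : ∀ m : ℕ, ∀ z ∈ Ideal.span {y : CH ρ p h | ∃ J, ∃ b ∈ restr F (CH ρ p h) (m - Λ J),
        y = b * ⟨Δ J, Δ_mem_CH hρ hT p h J⟩}, z ^ p ^ h j ∈
        Ideal.span {y : CH ρ p h | ∃ e, ∃ c ∈ restr F (CH ρ p h) e,
          ∃ b ∈ restr F (CH ρ p h) (m * p ^ h j - (e + l j * p ^ h j)),
            y = b * (Derivation.mk' (DC p hρ h j 1) (hd_leibniz hHD)) c} := by
      intro m z hz
      induction hz using Submodule.span_induction with
      | mem z hz =>
        obtain ⟨J, b, hb, rfl⟩ := hz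
        refine Ideal.subset_span ⟨(Λ J - l j) * p ^ h j,
          ⟨θ J j ^ p ^ h j, θ_mem_CH hT p h J j (h j) le_rfl⟩, ?_, b ^ p ^ h j, ?_, ?_⟩
        · exact pow_mem_F hF (p ^ h j) _ _ (hT.memθ J j)
        · have h1 := pow_mem_F (isFilt_restr hF (CH ρ p h)) (p ^ h j) _ b hb
          have h2 : m * p ^ h j - ((Λ J - l j) * p ^ h j + l j * p ^ h j) =
              (m - Λ J) * p ^ h j := by
            rw [← Nat.add_mul, Nat.sub_add_cancel (hT.le J j), ← Nat.sub_mul]
          rw [h2]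
          exact h1
        · change _ = b ^ p ^ h j * DC p hρ h j 1 _
          rw [hθ, mul_pow]
      | zero =>
        rw [zero_pow (pow_pos hp.out.pos (h j)).ne']
        exact Ideal.zero_mem _
      | add y z _ _ hy hz =>
        rw [hfr]
        exact Ideal.add_mem _ hy hz
      | smul c z _ hz =>
        rw [smul_eq_mul, mul_pow]
        exact Ideal.mul_mem_left _ _ hz
    have h1 := key (N * d) _ hN
    have h2 : N * p ^ h j * d = N * d * p ^ h j := by ring
    rw [pow_mul, h2]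
    exact h1
  · intro b
    have h1 : ∀ i, p ^ (if i = j then h i + 1 else h i) =
        if i = j then p ^ (h i + 1) else p ^ h i := by
      intro i
      split_ifs <;> rfl
    constructor
    · intro hb
      rw [mem_CH] at hb
      have h2 : b ∈ CH ρ p h := by
        rw [mem_CH]
        intro i
        have h3 := hb i
        rw [h1] at h3
        by_cases hi : i = j
        · rw [if_pos hi] at h3
          exact ((frs_succ p (isAct_pj hρ i) (h i) b).1 h3).1
        · rwa [if_neg hi] at h3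
      refine ⟨h2, ?_⟩
      change DC p hρ h j 1 ⟨b, h2⟩ = 0
      apply Subtype.ext
      rw [coe_DC, one_mul]
      have h3 := hb j
      rw [h1, if_pos rfl] at h3
      exact ((frs_succ p (isAct_pj hρ j) (h j) b).1 h3).2
    · rintro ⟨hb, hb0⟩
      change DC p hρ h j 1 ⟨b, hb⟩ = 0 at hb0
      rw [mem_CH]
      intro i
      rw [h1]
      by_cases hi : i = j
      · subst hi
        rw [if_pos rfl]
        refine (frs_succ p (isAct_pj hρ i) (h i) b).2 ⟨mem_CH.1 hb i, ?_⟩
        have h3 := congrArg (fun y : CH ρ p h => (y : B)) hb0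
        change (pj ρ i b).coeff (1 * p ^ h i) = 0 at h3
        rwa [one_mul] at h3
      · rw [if_neg hi]
        exact mem_CH.1 hb i

variable [IsDomain B]

include hρ hT hp hF hdiv in
/-- Quotients by products of Frobenius kernels. -/
theorem good_CH (hG : Good k hF) (hne : F 1 ≠ ⊥) :
    Good k (isFilt_restr hF (CH ρ p h)) ∧ restr F (CH ρ p h) 1 ≠ ⊥ := by
  classical
  have hpk : (p : k) = 0 := CharP.cast_eq_zero k p
  have key : ∀ (n : ℕ) (h : Fin r → ℕ), ∑ i, h i = n →
      Good k (isFilt_restr hF (CH ρ p h)) ∧ restr F (CH ρ p h) 1 ≠ ⊥ := by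
    intro n
    induction n with
    | zero =>
      intro h hh
      refine good_top hF hG hne ?_
      rw [eq_top_iff]
      intro b _
      rw [mem_CH']
      intro j n hn hn'
      have h1 : h j = 0 := (Finset.sum_eq_zero_iff.1 hh) j (Finset.mem_univ j)
      rw [h1, pow_zero] at hn'
      omega
    | succ n ih =>
      intro h hh
      obtain ⟨j, hj⟩ : ∃ j, h j ≠ 0 := by
        by_contra hcon
        push Not at hcon
        rw [Finset.sum_eq_zero fun i _ => hcon i] at hh
        omega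
      let h' : Fin r → ℕ := fun i => if i = j then h i - 1 else h i
      have hh' : ∑ i, h' i = n := by
        rw [← Finset.add_sum_erase Finset.univ _ (Finset.mem_univ j)] at hh ⊢
        have e1 : h' j = h j - 1 := if_pos rfl
        have e2 : ∑ i ∈ Finset.univ.erase j, h' i = ∑ i ∈ Finset.univ.erase j, h i := by
          refine Finset.sum_congr rfl fun i hi => ?_
          exact if_neg (Finset.ne_of_mem_erase hi)
        rw [e1, e2]
        omega
      obtain ⟨h1, h2⟩ := ih h' hh'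
      have h3 : (fun i => if i = j then h' i + 1 else h' i) = h := by
        funext i
        by_cases hi : i = j
        · rw [if_pos hi]
          simp only [h', if_pos hi]
          subst hi
          omega
        · rw [if_neg hi]
          simp only [h', if_neg hi]
      have h4 := dstep_CH hρ hT p h' hF hdiv j
      rw [h3] at h4
      exact good_dstep hp.out hpk hF h4 h1 h2
  exact key _ h rfl

end triv

end Pool.Agent.J6H48.MG
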