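import Pool.Agent.J6H48.MG.Inf
import Pool.Agent.J6H48.MG.Grp

/-! Quotients by finite subgroup schemes of vector groups. -/

set_option autoImplicit false
set_option linter.unusedSectionVars false

universe u v

namespace Pool.Agent.J6H48.MG

open MvPolynomial Pool.Agent.H920R2 Pool.Agent.H519R3.RS Pool.Agent.Y177.Ga

section main

variable {k B : Type u} [Field k] [CommRing B] [Algebra k B] {r : ℕ}
  {ρ : B →ₐ[k] MvPolynomial (Fin r) B} {F : ℕ → Ideal B} {l : Fin r → ℕ}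
  {ι : Type v} {Δ : ι → B} {Λ : ι → ℕ} {θ : ι → Fin r → B}
  (hρ : IsVAct ρ) (hT : Triv ρ F l Δ Λ θ)
  (p : ℕ) [hp : Fact p.Prime] [CharP k p] [CharP B p] (h : Fin r → ℕ) (hF : IsFilt F)
  (hdiv : ∀ d, ∀ b ∈ F d, ∀ α, (ρ b).coeff α ∈ F (d + ∑ j, α j * l j))

include hρ in
lemma sv_CH (t : Fin r → k) {b : B} (hb : b ∈ CH ρ p h) : sv ρ t b ∈ CH ρ p h := by
  rw [mem_CH'] at hb ⊢
  intro j n hn hn'
  rw [sv_coeff hρ, hb j n hn hn', map_zero]

/-- The action on the invariants of the infinitesimal part. -/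
noncomputable def sC (hρ : IsVAct ρ) (t : Fin r → k) : CH ρ p h →ₐ[k] CH ρ p h :=
  ((sv ρ t).comp (CH ρ p h).val).codRestrict (CH ρ p h) fun x => sv_CH hρ p h t x.2

lemma coe_sC (t : Fin r → k) (x : CH ρ p h) : ((sC p h hρ t x : CH ρ p h) : B) = sv ρ t x := rfl

include hρ hT hp hF in
/-- Elements on which the group acts through a given additive function. -/
lemma exists_elem {w : ℕ} {f : (Fin r → k) → k} (hf : f ∈ VF p h l w) (J : ι) :
    ∃ E0 : ℕ, ∀ E, E0 ≤ E → ∃ c ∈ CH ρ p h, c ∈ F (Λ J * p ^ E - w) ∧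
      ∀ t, sv ρ t c = c + f t • Δ J ^ p ^ E := by
  unfold VF at hf
  induction hf using Submodule.span_induction with
  | mem f hf =>
    obtain ⟨j, e, he, rfl⟩ := hf
    refine ⟨h j + e, fun E hE => ?_⟩
    have hle : p ^ (h j + e) ≤ p ^ E := Nat.pow_le_pow_right hp.out.pos hE
    refine ⟨Δ J ^ (p ^ E - p ^ (h j + e)) * θ J j ^ p ^ (h j + e),
      (CH ρ p h).mul_mem ((CH ρ p h).pow_mem (Δ_mem_CH hρ hT p h J) _)
        (θ_mem_CH hT p h J j _ (Nat.le_add_right _ _)), ?_, fun t => ?_⟩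
    · have h1 := pow_mem_F hF (p ^ E - p ^ (h j + e)) _ _ (hT.memΔ J)
      have h2 := pow_mem_F hF (p ^ (h j + e)) _ _ (hT.memθ J j)
      refine hF.anti _ _ ?_ (hF.mul _ _ (Ideal.mul_mem_mul h1 h2))
      obtain ⟨m, hm⟩ := Nat.exists_eq_add_of_le hle
      obtain ⟨c, hc⟩ := Nat.exists_eq_add_of_le (hT.le J j)
      rw [hm, Nat.add_sub_cancel_left, hc, Nat.add_sub_cancel_left]
      have e1 : (l j + c) * (p ^ (h j + e) + m) =
          l j * p ^ (h j + e) + ((l j + c) * m + c * p ^ (h j + e)) := by ring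
      have e2 : l j * p ^ (h j + e) ≤ w := by
        refine le_trans (le_of_eq ?_) he
        rw [pow_add]
        ring
      rw [e1]
      omega
    · rw [map_mul, map_pow, map_pow, sv_Δ hρ hT, sv_θ hT, add_pow_char_pow, mul_add]
      congr 1
      rw [smul_pow, mul_smul_comm, ← pow_add, Nat.sub_add_cancel hle]
      congr 1
      rw [pow_add p, pow_mul]
  | zero =>
    refine ⟨0, fun E _ => ⟨0, Subalgebra.zero_mem _, Ideal.zero_mem _, fun t => ?_⟩⟩
    simp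
  | add f g _ _ hf hg =>
    obtain ⟨E1, h1⟩ := hf
    obtain ⟨E2, h2⟩ := hg
    refine ⟨max E1 E2, fun E hE => ?_⟩
    obtain ⟨c, hc, hcF, hct⟩ := h1 E ((le_max_left _ _).trans hE)
    obtain ⟨c', hc', hcF', hct'⟩ := h2 E ((le_max_right _ _).trans hE)
    refine ⟨c + c', Subalgebra.add_mem _ hc hc', Ideal.add_mem _ hcF hcF', fun t => ?_⟩
    rw [map_add, hct, hct', Pi.add_apply, add_smul]
    ring
  | smul a f _ hf =>
    obtain ⟨E1, h1⟩ := hf
    refine ⟨E1, fun E hE => ?_⟩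
    obtain ⟨c, hc, hcF, hct⟩ := h1 E hE
    refine ⟨a • c, Subalgebra.smul_mem _ hc a, ?_, fun t => ?_⟩
    · rw [Algebra.smul_def]
      exact Ideal.mul_mem_left _ _ hcF
    · rw [map_smul, hct, smul_add, Pi.smul_apply, smul_smul, smul_eq_mul]

include hρ hp hF hdiv in
lemma div_yd {T : AddSubgroup (Fin r → k)} {φ : Fin r → (Fin r → k) → k} {l' : Fin r → ℕ}
    (D : YD p h l F T φ l') (a : Fin r → k) (m : ℕ) (hm : ∀ i, φ i a ≠ 0 → m ≤ l' i)
    (d : ℕ) (b : B) (hb : b ∈ F d) (hbC : b ∈ CH ρ p h) (hbT : b ∈ ivv ρ T) :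
    sv ρ a b - b ∈ F (d + m) := by
  have h1 : (fun s => sv ρ s b - b) ∈ WB (k := k) p h l F d := by
    refine Submodule.sub_mem _ (sv_WB hρ p h hdiv hb hbC) ?_
    refine Submodule.subset_span ⟨0, _, one_mem_WF p h l 0, b, hb, ?_⟩
    funext s
    rw [one_smul]
  obtain ⟨G, hG, h2⟩ := D.div d _ h1 (fun t ht => by rw [hbT t ht, sub_self])
  rw [h2 a]
  refine Ideal.sum_mem _ fun i _ => ?_
  by_cases hi : φ i a = 0
  · rw [hi, zero_smul]
    exact Ideal.zero_mem _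
  · rw [Algebra.smul_def]
    refine Ideal.mul_mem_left _ _ (hF.anti _ _ ?_ (WB_val p h l F hF.anti (hG i) a))
    have := hm i hi
    omega

variable [IsDomain B]

include hρ hT hp hF in
lemma rad_yd (hl : ∀ j, 0 < l j) {T : AddSubgroup (Fin r → k)} {φ : Fin r → (Fin r → k) → k}
    {l' : Fin r → ℕ}
    (D : YD p h l F T φ l') (a : Fin r → k) (j0 : Fin r) (hj0 : φ j0 a ≠ 0)
    {L : Type u} [Field L] [Algebra k L] (g : CH ρ p h →ₐ[k] L)
    (Q : Ideal (rG g (isFilt_restr hF (CH ρ p h)))) (hQ : Q.IsPrime)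
    (hQT : ∀ (e : ℕ) (c : CH ρ p h), c ∈ restr F (CH ρ p h) e → c ∈ ivg (sC p h hρ) T →
      JQ g (isFilt_restr hF (CH ρ p h)) Q ((e : ℤ) + l' j0) (sC p h hρ a c - c))
    (d : ℕ) (x : L) (hx : hm d x ∈ rG g (isFilt_restr hF (CH ρ p h))) (hd : 0 < d) :
    (⟨hm d x, hx⟩ : rG g (isFilt_restr hF (CH ρ p h))) ∈ Q := by
  have hFC := isFilt_restr hF (CH ρ p h)
  have hΔQ : ∀ J, JQ g hFC Q (Λ J : ℤ) ⟨Δ J, Δ_mem_CH hρ hT p h J⟩ := by
    intro J
    obtain ⟨E0, hE0⟩ := exists_elem hρ hT p h hF (D.mem j0) J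
    let E := E0 + l' j0
    obtain ⟨c, hc, hcF, hct⟩ := hE0 E (Nat.le_add_right _ _)
    have hΛ : 0 < Λ J := (hl j0).trans_le (hT.le J j0)
    have hE1 : l' j0 ≤ Λ J * p ^ E := by
      have h1 : E < p ^ E := Nat.lt_pow_self hp.out.one_lt
      have h2 : 1 * p ^ E ≤ Λ J * p ^ E := Nat.mul_le_mul_right _ hΛ
      omega
    have h1 := hQT (Λ J * p ^ E - l' j0) ⟨c, hc⟩ hcF (by
      intro t ht
      apply Subtype.ext
      rw [coe_sC]
      change sv ρ t c = c
      rw [hct, D.van t ht, zero_smul, add_zero])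
    have h2 : (((Λ J * p ^ E - l' j0 : ℕ) : ℤ) + l' j0) = ((Λ J * p ^ E : ℕ) : ℤ) := by
      omega
    have h3 : sC p h hρ a ⟨c, hc⟩ - ⟨c, hc⟩ =
        φ j0 a • (⟨Δ J, Δ_mem_CH hρ hT p h J⟩ : CH ρ p h) ^ p ^ E := by
      apply Subtype.ext
      change sv ρ a c - c = φ j0 a • Δ J ^ p ^ E
      rw [hct, add_sub_cancel_left]
    rw [h2, h3] at h1
    have h4 := JQ.smul g hFC h1 (φ j0 a)⁻¹
    rw [smul_smul, inv_mul_cancel₀ hj0, one_smul] at h4
    have h5 : (⟨Δ J, Δ_mem_CH hρ hT p h J⟩ : CH ρ p h) ^ p ^ E =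
        ∏ _i ∈ Finset.range (p ^ E), (⟨Δ J, Δ_mem_CH hρ hT p h J⟩ : CH ρ p h) := by
      rw [Finset.prod_const, Finset.card_range]
    have h6 : Λ J * p ^ E = (Finset.range (p ^ E)).card * Λ J := by
      rw [Finset.card_range, mul_comm]
    rw [h5, h6] at h4
    obtain ⟨_, _, h7⟩ := JQ.prod g hFC hQ (Finset.range (p ^ E)) _
      (fun _ _ => (show _ ∈ restr F (CH ρ p h) (Λ J) from hT.memΔ J)) h4
    exact h7
  obtain ⟨b, hb, hbx⟩ := of_hm_mem_rG g hFC hx
  rw [Int.toNat_natCast] at hb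
  subst hbx
  obtain ⟨N, hN⟩ := genC hρ hT p h hF d hd b hb
  have key : JQ g hFC Q ((N * d : ℕ) : ℤ) (b ^ N) := by
    have : ∀ z ∈ Ideal.span {y : CH ρ p h | ∃ J, ∃ b ∈ restr F (CH ρ p h) (N * d - Λ J),
        y = b * ⟨Δ J, Δ_mem_CH hρ hT p h J⟩}, JQ g hFC Q ((N * d : ℕ) : ℤ) z := by
      intro z hz
      induction hz using Submodule.span_induction with
      | mem z hz =>
        obtain ⟨J, b', hb', rfl⟩ := hz
        have h1 := JQ.mul g hFC (hΔQ J) (e' := ((N * d : ℕ) : ℤ) - Λ J) (y := b') (by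
          have h2 : (((N * d : ℕ) : ℤ) - Λ J).toNat = N * d - Λ J := by omega
          rw [h2]
          exact hb')
        have h3 : ((Λ J : ℤ) + (((N * d : ℕ) : ℤ) - Λ J)) = ((N * d : ℕ) : ℤ) := by ring
        rw [h3, mul_comm (⟨Δ J, Δ_mem_CH hρ hT p h J⟩ : CH ρ p h) b'] at h1
        exact h1
      | zero => exact JQ.zero g hFC _
      | add y z _ _ hy hz => exact JQ.add g hFC hy hz
      | smul c z _ hz =>
        have h1 := JQ.mul g hFC hz (e' := 0) (y := c) (by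
          change _ ∈ restr F (CH ρ p h) 0
          rw [hFC.zero]; trivial)
        rw [add_zero, mul_comm z c] at h1
        exact h1
    exact this _ hN
  have h5 : b ^ N = ∏ _i ∈ Finset.range N, b := by
    rw [Finset.prod_const, Finset.card_range]
  have h6 : N * d = (Finset.range N).card * d := by
    rw [Finset.card_range]
  rw [h5, h6] at key
  obtain ⟨_, _, h7, h8⟩ := JQ.prod g hFC hQ (Finset.range N) _ (fun _ _ => hb) key
  exact h8

include hρ hT hp hF hdiv in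
/-- Quotients by finite subgroup schemes of vector groups. -/
theorem good_vec (hl : ∀ j, 0 < l j) (hG : Good k hF) (hne : F 1 ≠ ⊥)
    (A : AddSubgroup (Fin r → k)) [Finite A] :
    Good k (isFilt_restr hF (CH ρ p h ⊓ ivv ρ A)) ∧
      restr F (CH ρ p h ⊓ ivv ρ A) 1 ≠ ⊥ := by
  have hpk : (p : k) = 0 := CharP.cast_eq_zero k p
  obtain ⟨h1, h2⟩ := good_CH hρ hT p h hF hdiv hG hne
  have hFC := isFilt_restr hF (CH ρ p h)
  obtain ⟨h3, h4⟩ := good_ivg (σ := sC p h hρ)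
    (fun x => Subtype.ext (by rw [coe_sC, sv_zero hρ]))
    (fun a b x => Subtype.ext (by rw [coe_sC, coe_sC, coe_sC, sv_add hρ]))
    hFC (fun b d x hx => sv_mem hF.anti hdiv b d x hx) hp.out hpk A
    (fun a _ => by
      funext j
      rw [Pi.smul_apply, nsmul_eq_mul, hpk, zero_mul, Pi.zero_apply])
    h1 h2 (by
      intro T hTf _ a _ haT
      obtain ⟨φ, l', D⟩ := exists_yd p h l F hF.anti hl T
      obtain ⟨j, hj⟩ : ∃ j, φ j a ≠ 0 := by
        by_contra hcon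
        push Not at hcon
        exact haT (D.ker a hcon)
      classical
      obtain ⟨j0, hj0, hmin⟩ := Finset.exists_min_image
        (Finset.univ.filter fun i => φ i a ≠ 0) l' ⟨j, by simp [hj]⟩
      have hj0' : φ j0 a ≠ 0 := by simpa using hj0
      refine ⟨l' j0, D.pos j0, ?_, ?_⟩
      · intro d x hx hxT
        exact div_yd hρ p h hF hdiv D a (l' j0) (fun i hi => hmin i (by simp [hi])) d x hx x.2
          fun t ht => congrArg Subtype.val (hxT t ht)
      · intro Q hQ hQT d x hx hd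
        exact rad_yd hρ hT p h hF hl D a j0 hj0' _ Q hQ hQT d x hx hd)
  -- transport
  let j1 : (CH ρ p h ⊓ ivv ρ A : Subalgebra k B) →ₐ[k] CH ρ p h :=
    Subalgebra.inclusion inf_le_left
  have hj1 : ∀ x, j1 x ∈ ivg (sC p h hρ) A := by
    intro x a ha
    apply Subtype.ext
    rw [coe_sC]
    exact x.2.2 a ha
  let j : (CH ρ p h ⊓ ivv ρ A : Subalgebra k B) →ₐ[k] ivg (sC p h hρ) A := j1.codRestrict _ hj1
  have hcoe : ∀ x, (((j x : ivg (sC p h hρ) A) : CH ρ p h) : B) = x := fun x => rfl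
  have hinj : Function.Injective j := by
    intro x y hxy
    apply Subtype.ext
    rw [← hcoe x, ← hcoe y, hxy]
  have hsurj : Function.Surjective j := by
    rintro ⟨⟨b, hb⟩, hb'⟩
    refine ⟨⟨b, hb, fun a ha => ?_⟩, rfl⟩
    have h5 := hb' a ha
    exact congrArg (fun y : CH ρ p h => (y : B)) h5
  refine ⟨good_congr (isFilt_restr hFC (ivg (sC p h hρ) A)) h3 j hinj hsurj
    (isFilt_restr hF (CH ρ p h ⊓ ivv ρ A)) fun d c => Iff.rfl, ?_⟩
  obtain ⟨x, hx, hx0⟩ := Submodule.exists_mem_ne_zero_of_ne_bot h4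
  obtain ⟨y, rfl⟩ := hsurj x
  intro hbot
  have h5 : y ∈ restr F (CH ρ p h ⊓ ivv ρ A) 1 := hx
  rw [hbot, Ideal.mem_bot] at h5
  rw [h5, map_zero] at hx0
  exact hx0 rfl

end main

end Pool.Agent.J6H48.MG
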